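import Mathlib

/-! # One-sided pair correlation implies pair correlation: the analytic tasks (Mathlib only) -/

open Filter Topology Set MeasureTheory
open scoped BigOperators

namespace W207.PR

/-- `G u = ∫_0^u (1 - (sin πt / πt)²) dt` -/
noncomputable def G (u : ℝ) : ℝ :=
  ∫ t in (0 : ℝ)..u, (1 - (Real.sin (Real.pi * t) / (Real.pi * t)) ^ 2)

/-- the test functions: smooth, even, supported in `[-μ, μ]` for a `μ < 1` -/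
structure Tst (ψ : ℝ → ℝ) : Prop where
  smooth : ∀ n : ℕ, ContDiff ℝ n ψ
  even : ∀ x, ψ (-x) = ψ x
  supp : ∃ μ : ℝ, 0 < μ ∧ μ < 1 ∧ ∀ x, μ ≤ |x| → ψ x = 0

/-- the cosine transform `∫ ψ(α) cos (2π α x) dα` -/
noncomputable def ct (ψ : ℝ → ℝ) (x : ℝ) : ℝ := ∫ α : ℝ, ψ α * Real.cos (2 * Real.pi * α * x)

/-- the derivative of the cosine transform -/
noncomputable def dt (ψ : ℝ → ℝ) (x : ℝ) : ℝ :=
  -∫ α : ℝ, (2 * Real.pi * α * ψ α) * Real.sin (2 * Real.pi * α * x)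

/-- the main term -/
noncomputable def MM (ψ : ℝ → ℝ) : ℝ := ψ 0 + ∫ α : ℝ, |α| * ψ α

/-! ### Tasks -/

open Classical in
/-- cells -/
def S_CELL : Prop := ∀ (Z : Finset ℂ) (m x : ℂ → ℝ), (∀ s, 0 ≤ m s) → ∀ δ : ℝ, 0 < δ → ∀ k : ℕ,
  (∑ s ∈ Z, ∑ s' ∈ Z, if |x s - x s'| ≤ k * δ then m s * m s' else 0) ≤
    (2 * k + 1) * ∑ s ∈ Z, ∑ s' ∈ Z, if |x s - x s'| ≤ δ then m s * m s' else 0

/-- decay of the transforms -/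
def S_DEC : Prop := ∀ ψ : ℝ → ℝ, Tst ψ → (∀ x, HasDerivAt (ct ψ) (dt ψ x) x) ∧
  Continuous (dt ψ) ∧ ∀ n : ℕ, ∃ K : ℝ, 0 < K ∧ ∀ x, |ct ψ x| * (1 + |x|) ^ n ≤ K ∧
    |dt ψ x| * (1 + |x|) ^ n ≤ K

/-- integration by parts, the main term -/
def S_IBG : Prop := S_DEC → ∀ ψ : ℝ → ℝ, Tst ψ →
  IntegrableOn (fun u => dt ψ u * (1 + 2 * G u)) (Ioi 0) ∧
  MM ψ = -∫ u in Ioi (0 : ℝ), dt ψ u * (1 + 2 * G u)

/-- Helly's selection theorem -/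
def S_HELLY : Prop := ∀ (F : ℕ → ℝ → ℝ) (B : ℝ → ℝ), (∀ j, Monotone (F j)) →
  (∀ j u, |F j u| ≤ B u) → ∃ (φ : ℕ → ℕ) (Q : ℝ → ℝ), StrictMono φ ∧ Monotone Q ∧
    ∀ u, ContinuousAt Q u → Tendsto (fun j => F (φ j) u) atTop (𝓝 (Q u))

/-- many test functions -/
def S_TEST : Prop := ∀ U : ℝ, 0 < U → ∃ h : ℝ → ℝ, Continuous h ∧ (∀ u, 0 ≤ h u ∧ h u ≤ 1) ∧
  (∀ u, |u| ≤ U → 1 / 4 ≤ h u) ∧
  (∀ n : ℕ, ∃ K : ℝ, ∀ u, h u * (1 + |u|) ^ n ≤ K) ∧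
  ∀ k : ℕ, ∃ ψ : ℝ → ℝ, Tst ψ ∧ ∀ u, dt ψ u = -(u ^ (2 * k + 1) * h u)

/-- a function of exponential decay is determined by its even moments -/
def S_DET : Prop := ∀ (f : ℝ → ℝ) (c : ℝ), 0 < c →
  IntegrableOn (fun u => Real.exp (c * u) * f u) (Ioi 0) →
  (∀ k : ℕ, ∫ u in Ioi (0 : ℝ), u ^ (2 * k) * f u = 0) → ∀ᵐ u ∂(volume.restrict (Ioi 0)), f u = 0

/-- uniqueness -/
def S_UNIQ : Prop := S_TEST → S_DET → ∀ O : ℝ → ℝ, Measurable O → ∀ C c : ℝ, 0 < c →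
  (∀ᵐ u ∂(volume.restrict (Ioi 0)), |O u| ≤ C * (1 + u)) →
  (∀ᵐ u ∂(volume.restrict (Ioi 0)), -(C * Real.exp (-(c * u))) ≤ O u) →
  (∀ ψ, Tst ψ → ∫ u in Ioi (0 : ℝ), dt ψ u * O u = 0) →
  ∀ᵐ u ∂(volume.restrict (Ioi 0)), O u = 0

/-- a monotone deviation is one-sided -/
def S_MONO : Prop := S_TEST → ∀ O : ℝ → ℝ, Measurable O → ∀ C A : ℝ, 0 < A →
  (∀ᵐ u ∂(volume.restrict (Ioi 0)), |O u| ≤ C * (1 + u)) →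
  (∀ ψ, Tst ψ → ∫ u in Ioi (0 : ℝ), dt ψ u * O u = 0) →
  ∀ N : Set ℝ, N.Countable → (∀ a b, a ∉ N → b ∉ N → A < a → a < b → O a ≤ O b) →
  ∀ a, a ∉ N → A < a → O a ≤ 0

end W207.PR
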