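import Pool.Agent.W207.PR.Stmts

/-! # Montgomery's theorem for a block -/

open Complex Filter Topology Set MeasureTheory
open scoped BigOperators

namespace W207.PR

theorem blk : S_BLK := by
  intro hRH ψ hψ
  have hpi := Real.pi_pos
  obtain ⟨μ, hμ0, hμ1, hsupp⟩ := hψ.supp
  have hcont : Continuous ψ := (hψ.smooth 1).continuous
  have hdiff : Differentiable ℝ ψ := (hψ.smooth 1).differentiable (by norm_num)
  have hcd : Continuous (deriv ψ) := (hψ.smooth 1).continuous_deriv (by norm_num)
  have hcs : HasCompactSupport ψ := by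
    apply HasCompactSupport.intro (isCompact_Icc (a := -μ) (b := μ))
    intro x hx
    apply hsupp
    by_contra hc
    push Not at hc
    exact hx (abs_le.1 hc.le)
  obtain ⟨K, hK⟩ := hcd.bounded_above_of_compact_support hcs.deriv
  have hlip : ∀ x y, |ψ x - ψ y| ≤ K * |x - y| := by
    intro x y
    have := Convex.norm_image_sub_le_of_norm_deriv_le (f := ψ) (s := Set.univ) (C := K)
      (fun z _ => hdiff z) (fun z _ => hK z) convex_univ (Set.mem_univ y) (Set.mem_univ x)
    simpa [Real.norm_eq_abs] using this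
  have hint : Integrable ψ := hcont.integrable_of_hasCompactSupport hcs
  -- integrals over `ℝ` and over `(-μ, μ)`
  have hI : ∀ f : ℝ → ℝ, (∫ x in (-μ)..μ, ψ x * f x) = ∫ x, ψ x * f x := by
    intro f
    rw [intervalIntegral.integral_of_le (by linarith)]
    apply setIntegral_eq_integral_of_forall_compl_eq_zero
    intro x hx
    have : μ ≤ |x| := by
      by_contra hc
      push Not at hc
      obtain ⟨h1, h2⟩ := abs_lt.1 hc
      exact hx ⟨h1, h2.le⟩
    rw [hsupp x this, zero_mul]
  have hMM : ψ 0 + ∫ α in (-μ)..μ, |α| * ψ α = MM ψ := by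
    unfold MM
    congr 1
    have := hI (fun x => |x|)
    simp only [mul_comm (ψ _)] at this
    exact this
  rw [Metric.tendsto_nhds]
  intro ε hε
  obtain ⟨T0, hT0, hdet⟩ := W201FW.det_psi hRH μ (ε / 2) hμ0 hμ1 (by positivity) ψ K hlip hsupp
  have hlim : Tendsto (fun T : ℝ => (T - 2) / T * MM ψ) atTop (𝓝 (MM ψ)) := by
    have h1 : Tendsto (fun T : ℝ => (1 - 2 / T) * MM ψ) atTop (𝓝 ((1 - 0) * MM ψ)) :=
      (tendsto_const_nhds.sub (tendsto_const_nhds.div_atTop tendsto_id)).mul tendsto_const_nhds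
    rw [sub_zero, one_mul] at h1
    refine h1.congr' ?_
    filter_upwards [eventually_gt_atTop (0 : ℝ)] with T hT
    field_simp
  filter_upwards [eventually_ge_atTop T0, eventually_ge_atTop (10 : ℝ),
    (Metric.tendsto_nhds.1 hlim (ε / 2) (by positivity))] with T hT1 hT2 hT3
  have h := hdet T hT1
  rw [hI, (W201FW.int_tr hRH (by linarith : (1 : ℝ) ≤ T + 1) hint (Real.log T)).2, hMM] at h
  have hlog : 0 < Real.log T := Real.log_pos (by linarith)
  have hX : 0 < X T := by
    unfold X
    positivity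
  have e1 : (2 * T - 1 - (T + 1)) * Real.log T / (2 * Real.pi) = (T - 2) / T * X T := by
    unfold X
    field_simp
    ring
  rw [e1] at h
  have e2 : W201FW.SS (ct ψ) (T + 1) (2 * T - 1) (Real.log T) =
    W201FW.SS (W201FW.tr ψ) (T + 1) (2 * T - 1) (Real.log T) := rfl
  rw [e2, Real.dist_eq]
  rw [Real.dist_eq] at hT3
  set S := W201FW.SS (W201FW.tr ψ) (T + 1) (2 * T - 1) (Real.log T)
  have h4 : |S / X T - (T - 2) / T * MM ψ| ≤ ε / 2 := by
    have e3 : S / X T - (T - 2) / T * MM ψ = (S - (T - 2) / T * X T * MM ψ) / X T := by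
      field_simp
    rw [e3, abs_div, abs_of_pos hX, div_le_iff₀ hX]
    refine h.trans ?_
    have h5 : (T - 2) / T ≤ 1 := by
      rw [div_le_one (by linarith)]
      linarith
    have h6 : 0 ≤ (T - 2) / T := div_nonneg (by linarith) (by linarith)
    have : (T - 2) / T * X T ≤ X T := by nlinarith
    nlinarith
  calc |S / X T - MM ψ| ≤ |S / X T - (T - 2) / T * MM ψ| + |(T - 2) / T * MM ψ - MM ψ| :=
        abs_sub_le _ _ _
    _ < ε := by linarith

end W207.PR
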