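import Pool.Agent.W207.PR.Fin

/-! # The form at a single height -/

open Complex Filter Topology Set MeasureTheory
open scoped BigOperators

namespace W207.PR

lemma gg_nonneg {a : ℝ} (h : 0 ≤ a) : 0 ≤ gg a := by
  rw [gg_eq]
  have := Real.pi_pos
  have := G_nonneg h
  positivity

lemma gg_le {a : ℝ} (h : 0 ≤ a) : gg a ≤ a := by
  rw [gg_eq]
  have h1 := Real.pi_gt_three
  have h2 := G_le h
  rw [div_le_iff₀ (by positivity)]
  nlinarith

/-- from the statement along sequences to the statement at a single height -/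
theorem single (h1 : ∀ l : Filter ℝ, l.IsCountablyGenerated → l ≤ atTop → Lower l →
      PCC l ∧ Tendsto (fun T => (Nsi T : ℝ) / Nal T) l (𝓝 1))
    (a₀ A ε : ℝ) (ha₀ : 0 < a₀) (hA : 0 < A) (hε : 0 < ε) :
    ∃ B δ T₀ : ℝ, 0 < δ ∧ ∀ T : ℝ, T₀ ≤ T →
      (∀ a : ℝ, A ≤ a → a ≤ B → (gg a - δ) * (T * Real.log T) ≤ Nst T a) →
      |(Nst T a₀ : ℝ) / (T * Real.log T) - gg a₀| ≤ ε ∧ (1 - ε) * (Nal T : ℝ) ≤ Nsi T := by
  by_contra hcon
  push Not at hcon
  have hcon' : ∀ n : ℕ, ∃ T : ℝ, (n : ℝ) + 10 ≤ T ∧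
      (∀ a : ℝ, A ≤ a → a ≤ n → (gg a - 1 / ((n : ℝ) + 1)) * (T * Real.log T) ≤ Nst T a) ∧
      ¬ (|(Nst T a₀ : ℝ) / (T * Real.log T) - gg a₀| ≤ ε ∧ (1 - ε) * (Nal T : ℝ) ≤ Nsi T) := by
    intro n
    obtain ⟨T, hT, h2, h3⟩ := hcon n (1 / ((n : ℝ) + 1)) ((n : ℝ) + 10) (by positivity)
    refine ⟨T, hT, h2, ?_⟩
    rintro ⟨g1, g2⟩
    exact absurd g2 (not_le.2 (h3 g1))
  choose t ht1 ht2 ht3 using hcon'
  have htop : Tendsto t atTop atTop :=
    tendsto_atTop_mono (fun n => (by linarith [ht1 n] : (n : ℝ) ≤ t n)) tendsto_natCast_atTop_atTop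
  have hlow : Lower (map t atTop) := by
    refine ⟨A * Real.exp A, 1, one_pos, fun a ha η hη => ?_⟩
    rw [eventually_map]
    rcases lt_or_ge a A with hlt | hge
    · filter_upwards with n
      have hX : 0 ≤ t n * Real.log (t n) := by
        have h5 : (10 : ℝ) ≤ t n := by
          have := ht1 n
          have h6 : (0 : ℝ) ≤ n := Nat.cast_nonneg n
          linarith
        have := Real.log_nonneg (show (1 : ℝ) ≤ t n by linarith)
        have : 0 ≤ t n := by linarith
        positivity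
      have h7 : A ≤ A * Real.exp A * Real.exp (-(1 * a)) := by
        rw [mul_assoc, ← Real.exp_add]
        have : (1 : ℝ) ≤ Real.exp (A + -(1 * a)) := Real.one_le_exp (by linarith)
        nlinarith
      have h8 := gg_le ha.le
      have h9 : gg a - A * Real.exp A * Real.exp (-(1 * a)) - η ≤ 0 := by linarith
      exact (mul_nonpos_of_nonpos_of_nonneg h9 hX).trans (Nat.cast_nonneg _)
    · obtain ⟨n1, hn1⟩ := exists_nat_ge a
      obtain ⟨n2, hn2⟩ := exists_nat_one_div_lt hη
      filter_upwards [eventually_ge_atTop (max n1 n2)] with n hn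
      have hna : a ≤ n := hn1.trans (by exact_mod_cast (le_max_left _ _).trans hn)
      have hnη : 1 / ((n : ℝ) + 1) ≤ η := by
        refine le_trans ?_ hn2.le
        apply one_div_le_one_div_of_le (by positivity)
        have : ((n2 : ℕ) : ℝ) ≤ n := by exact_mod_cast (le_max_right _ _).trans hn
        linarith
      refine le_trans ?_ (ht2 n a hge hna)
      have hX : 0 ≤ t n * Real.log (t n) := by
        have h5 : (10 : ℝ) ≤ t n := by
          have := ht1 n
          have h6 : (0 : ℝ) ≤ n := Nat.cast_nonneg n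
          linarith
        have := Real.log_nonneg (show (1 : ℝ) ≤ t n by linarith)
        have : 0 ≤ t n := by linarith
        positivity
      apply mul_le_mul_of_nonneg_right _ hX
      have : 0 ≤ A * Real.exp A * Real.exp (-(1 * a)) := by positivity
      linarith
  obtain ⟨g1, g2⟩ := h1 (map t atTop) inferInstance (by rwa [← Tendsto]) hlow
  have g3 : ∀ᶠ n in atTop, |(Nst (t n) a₀ : ℝ) / (t n * Real.log (t n)) - gg a₀| < ε := by
    have := (g1 a₀ ha₀)
    rw [tendsto_map'_iff] at this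
    exact (Metric.tendsto_nhds.1 this ε hε)
  have g4 : ∀ᶠ n in atTop, 1 - ε < (Nsi (t n) : ℝ) / Nal (t n) := by
    rw [tendsto_map'_iff] at g2
    exact g2.eventually (lt_mem_nhds (by linarith))
  obtain ⟨n, g5, g6⟩ := (g3.and g4).exists
  apply ht3 n
  refine ⟨g5.le, ?_⟩
  rcases (Nat.cast_nonneg (α := ℝ) (Nal (t n))).eq_or_lt with h0 | h0
  · rw [← h0, mul_zero]
    exact Nat.cast_nonneg _
  · rw [lt_div_iff₀ h0] at g6
    exact g6.le

end W207.PR
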