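import Pool.Agent.W207.PR.Zeta

/-! # Uniform bound for the pair counts -/

open Complex Filter Topology Set MeasureTheory
open scoped BigOperators

namespace W207.PR

theorem ub : S_UB := by
  intro hRH hCELL
  obtain ⟨T0, hT0, hup⟩ := W201FW.upN hRH (β := 1) one_pos (ε := 1) one_pos
  have hpi := Real.pi_pos
  refine ⟨15, max T0 10, by norm_num, le_max_right _ _, fun T hT u hu => ?_⟩
  have hT1 : T0 ≤ T := (le_max_left _ _).trans hT
  have hT10 : 10 ≤ T := (le_max_right _ _).trans hT
  have hX := X_pos hT10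
  have hlog : 0 < Real.log T := Real.log_pos (by linarith)
  have h1 : H332B.N2 T (2 * Real.pi / Real.log T) ≤ 5 * X T := by
    have h := hup T hT1
    rw [mul_one] at h
    refine h.trans ?_
    have : T / (2 * Real.pi) * Real.log T = X T := rfl
    rw [this]
    nlinarith
  set k : ℕ := ⌈u⌉₊ with hk
  have hk1 : u ≤ k := Nat.le_ceil u
  have hk2 : (k : ℝ) < u + 1 := Nat.ceil_lt_add_one hu
  have h2 : H332B.N2 T (2 * Real.pi * u / Real.log T) ≤
      H332B.N2 T (k * (2 * Real.pi / Real.log T)) := by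
    apply N2_mono
    rw [mul_comm (k : ℝ), div_mul_eq_mul_div]
    gcongr
  have h3 : H332B.N2 T (k * (2 * Real.pi / Real.log T)) ≤
      (2 * k + 1) * H332B.N2 T (2 * Real.pi / Real.log T) := by
    have h := hCELL (ZT T) mz (fun s => s.im) (fun s => mz_nonneg s) (2 * Real.pi / Real.log T)
      (by positivity) k
    unfold H332B.N2
    convert h using 2
  unfold P
  rw [div_le_iff₀ hX]
  calc H332B.N2 T (2 * Real.pi * u / Real.log T) ≤
      (2 * k + 1) * H332B.N2 T (2 * Real.pi / Real.log T) := h2.trans h3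
    _ ≤ (2 * k + 1) * (5 * X T) := by gcongr
    _ ≤ (2 * (u + 1) + 1) * (5 * X T) := by gcongr
    _ ≤ 15 * (1 + u) * X T := by nlinarith

end W207.PR
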