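import Pool.Agent.W207.PR.Fin2
import Pool.Agent.W207.PR.Fin3
import Pool.Agent.W333.PR.Cell
import Pool.Agent.W578.PR.Dec
import Pool.Agent.W32.PR.Ibg
import Pool.Agent.W973.PR.Helly
import Pool.Agent.W613.PR.Test
import Pool.Agent.W125.PR.Det
import Pool.Agent.W417.PR.Uniq
import Pool.Agent.W605.PR.Mono
import Pool.Agent.W345.PR.Ibp
import Pool.Agent.W340.PR.TestE
import Pool.Agent.W346.PR.Shift
import Pool.Agent.W417.PR.UniqE
import Pool.Agent.W515.PR.Dense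
import Pool.Agent.W338.PR.Sum
import Pool.Agent.W207.PR.Ub
import Pool.Agent.W207.PR.BlkT

/-! # The main theorems -/

open Complex Filter Topology Set MeasureTheory
open scoped BigOperators

namespace W207.PR




theorem core' : S_CORE := core W333.PR.cell ub Pool.Agent.W578.PR.dec blk Pool.Agent.W338.PR.sum
  Pool.Agent.W345.PR.ibp Pool.Agent.W32.PR.ibg W973.PR.helly Pool.Agent.W613.PR.test W125.PR.det
  Pool.Agent.W417.PR.uniq

theorem corew' : S_COREW := corew W333.PR.cell ub Pool.Agent.W578.PR.dec blk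
  Pool.Agent.W338.PR.sum Pool.Agent.W345.PR.ibp Pool.Agent.W32.PR.ibg W973.PR.helly Pool.Agent.W613.PR.test
  W125.PR.det Pool.Agent.W417.PR.uniq Pool.Agent.W605.PR.mono

theorem main1 (RH : RiemannHypothesis) (l : Filter ℝ) [l.IsCountablyGenerated] (hl : l ≤ atTop) :
    (PCC l ↔ Lower l) ∧ (PCC l ↔ Upper l) ∧
    (PCC l → Tendsto (fun T => (Nsi T : ℝ) / Nal T) l (𝓝 1)) := by
  obtain ⟨h1, h2⟩ := final core' corew' RH l hl
  exact ⟨h1.out 0 1, h1.out 0 2, h2⟩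

theorem main1s (RH : RiemannHypothesis) (a₀ A ε : ℝ) (ha₀ : 0 < a₀) (hA : 0 < A) (hε : 0 < ε) :
    ∃ B δ T₀ : ℝ, 0 < δ ∧ ∀ T : ℝ, T₀ ≤ T →
      (∀ a : ℝ, A ≤ a → a ≤ B → (gg a - δ) * (T * Real.log T) ≤ Nst T a) →
      |(Nst T a₀ : ℝ) / (T * Real.log T) - gg a₀| ≤ ε ∧ (1 - ε) * (Nal T : ℝ) ≤ Nsi T := by
  refine single (fun l hc hl hlow => ?_) a₀ A ε ha₀ hA hε
  have := hc
  obtain ⟨h1, h2, h3⟩ := main1 RH l hl
  exact ⟨h1.2 hlow, h3 (h1.2 hlow)⟩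

theorem main2 (RH : RiemannHypothesis) (l : Filter ℝ) [l.IsCountablyGenerated] (hl : l ≤ atTop)
    (L : Set ℝ) (hL : ∀ ℓ ∈ L, 0 < ℓ) (hd : Dense (AddSubgroup.closure L : Set ℝ)) :
    WC l ↔ ∀ ℓ ∈ L, WL l ℓ ∨ WU l ℓ :=
  final2 W333.PR.cell ub Pool.Agent.W578.PR.dec blk Pool.Agent.W338.PR.sum
    Pool.Agent.W345.PR.ibp Pool.Agent.W32.PR.ibg W973.PR.helly W125.PR.det
    Pool.Agent.W340.PR.teste Pool.Agent.W417.PR.uniqe Pool.Agent.W346.PR.shift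
    Pool.Agent.W346.PR.diff Pool.Agent.W515.PR.dense_periods RH l hl L hL hd

end W207.PR
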