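import Pool.Agent.W207.PR.A0

/-! # Windows of fixed lengths: the analytic tasks (Mathlib only) -/

open Filter Topology Set MeasureTheory
open scoped BigOperators

namespace W207.PR

/-- many even test functions -/
def S_TESTE : Prop := ∀ U : ℝ, 0 < U → ∃ h : ℝ → ℝ, Continuous h ∧ (∀ u, 0 ≤ h u ∧ h u ≤ 1) ∧
  (∀ u, |u| ≤ U → 1 / 4 ≤ h u) ∧
  (∀ n : ℕ, ∃ K : ℝ, ∀ u, h u * (1 + |u|) ^ n ≤ K) ∧
  ∀ k : ℕ, ∃ ψ : ℝ → ℝ, Tst ψ ∧ ∀ u, ct ψ u = u ^ (2 * k) * h u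

/-- the difference of two shifts of an even test function is an odd test function -/
def S_SHIFT : Prop := ∀ ψ : ℝ → ℝ, Tst ψ → ∀ s : ℝ, ∃ ψ' : ℝ → ℝ, Tst ψ' ∧
  ∀ v, dt ψ' v = ct ψ (v + s) - ct ψ (v - s)

/-- uniqueness, even functions -/
def S_UNIQE : Prop := S_TESTE → S_DET → ∀ E : ℝ → ℝ, Measurable E → ∀ C c : ℝ, 0 < c →
  (∀ᵐ u ∂(volume.restrict (Ioi 0)), |E u| ≤ C * (1 + u)) →
  (∀ᵐ u ∂(volume.restrict (Ioi 0)), -(C * Real.exp (-(c * u))) ≤ E u) →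
  (∀ ψ, Tst ψ → ∫ u in Ioi (0 : ℝ), ct ψ u * E u = 0) →
  ∀ᵐ u ∂(volume.restrict (Ioi 0)), E u = 0

/-- differences of an odd function with a spectral gap -/
def S_DIFF : Prop := S_DEC → S_SHIFT → ∀ O : ℝ → ℝ, Measurable O → (∀ u, O (-u) = -O u) →
  ∀ C : ℝ, (∀ᵐ u, |O u| ≤ C * (1 + |u|)) →
  (∀ ψ, Tst ψ → ∫ u in Ioi (0 : ℝ), dt ψ u * O u = 0) →
  ∀ s : ℝ, 0 < s → ∀ ψ, Tst ψ → ∫ u in Ioi (0 : ℝ), ct ψ u * (O (u + s) - O (u - s)) = 0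

/-- periods that generate a dense group -/
def S_DENSE : Prop := ∀ O Q g : ℝ → ℝ, (∀ u, O (-u) = -O u) → Monotone Q → Continuous g →
  (∀ u, 0 < u → O u = Q u - g u) → ∀ L : Set ℝ, Dense (AddSubgroup.closure L : Set ℝ) →
  (∀ ℓ ∈ L, ∀ᵐ u : ℝ, O (u + ℓ) = O u) → ∀ u, 0 < u → Q u = g u

end W207.PR
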