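import Pool.Agent.W207.PR.A0

/-! # The abstract core of the rigidity theorem -/

open Filter Topology Set MeasureTheory
open scoped BigOperators

namespace W207.PR

/-- the integrand of `G` -/
noncomputable def gi (t : ℝ) : ℝ := 1 - (Real.sin (Real.pi * t) / (Real.pi * t)) ^ 2

lemma gi_nonneg (t : ℝ) : 0 ≤ gi t := by
  unfold gi
  have h : |Real.sin (Real.pi * t) / (Real.pi * t)| ≤ 1 := by
    rw [abs_div]
    exact div_le_one_of_le₀ Real.abs_sin_le_abs (abs_nonneg _)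
  have h2 : (Real.sin (Real.pi * t) / (Real.pi * t)) ^ 2 ≤ 1 := by
    rw [← sq_abs]
    exact pow_le_one₀ (abs_nonneg _) h
  linarith

lemma gi_le_one (t : ℝ) : gi t ≤ 1 := by
  unfold gi
  have : 0 ≤ (Real.sin (Real.pi * t) / (Real.pi * t)) ^ 2 := sq_nonneg _
  linarith

lemma gi_meas : Measurable gi := by unfold gi; fun_prop

lemma gi_ii (a b : ℝ) : IntervalIntegrable gi volume a b := by
  refine (intervalIntegrable_const (c := (1 : ℝ))).mono_fun' gi_meas.aestronglyMeasurable ?_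
  refine Filter.Eventually.of_forall fun t => ?_
  show ‖gi t‖ ≤ 1
  rw [Real.norm_eq_abs, abs_of_nonneg (gi_nonneg t)]
  exact gi_le_one t

lemma G_eq (u : ℝ) : G u = ∫ t in (0 : ℝ)..u, gi t := rfl

lemma G_sub (a b : ℝ) : G b - G a = ∫ t in a..b, gi t := by
  rw [G_eq, G_eq, intervalIntegral.integral_interval_sub_left (gi_ii _ _) (gi_ii _ _)]

lemma G_mono : Monotone G := by
  intro a b h
  have h1 := G_sub a b
  have h2 : 0 ≤ ∫ t in a..b, gi t := intervalIntegral.integral_nonneg h fun t _ => gi_nonneg t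
  linarith

lemma G_lip {a b : ℝ} (h : a ≤ b) : G b - G a ≤ b - a := by
  rw [G_sub]
  calc ∫ t in a..b, gi t ≤ ∫ _ in a..b, (1 : ℝ) :=
        intervalIntegral.integral_mono_on h (gi_ii _ _) intervalIntegrable_const
          fun t _ => gi_le_one t
    _ = b - a := by simp

lemma G_zero : G 0 = 0 := by unfold G; simp

lemma G_nonneg {u : ℝ} (h : 0 ≤ u) : 0 ≤ G u := by
  rw [← G_zero]; exact G_mono h

lemma G_le {u : ℝ} (h : 0 ≤ u) : G u ≤ u := by
  have := G_lip h
  rw [G_zero] at this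
  linarith

lemma G_cont : Continuous G := by
  have : LipschitzWith 1 G := by
    refine LipschitzWith.of_dist_le_mul fun x y => ?_
    rw [Real.dist_eq, Real.dist_eq]
    simp only [NNReal.coe_one, one_mul]
    rcases le_total x y with h | h
    · have h1 := G_lip h
      have h2 := G_mono h
      rw [abs_sub_comm, abs_of_nonneg (by linarith), abs_sub_comm, abs_of_nonneg (by linarith)]
      exact h1
    · have h1 := G_lip h
      have h2 := G_mono h
      rw [abs_of_nonneg (by linarith), abs_of_nonneg (by linarith)]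
      exact h1
  exact this.continuous

/-- a monotone function that agrees a.e. with a continuous one agrees everywhere -/
lemma mono_eq {Q g : ℝ → ℝ} (hQ : Monotone Q) (hg : Continuous g)
    (h : ∀ᵐ u ∂(volume.restrict (Ioi (0 : ℝ))), Q u = g u) : ∀ u, 0 < u → Q u = g u := by
  have hd : ∀ a b : ℝ, 0 ≤ a → a < b → ∃ x, a < x ∧ x < b ∧ Q x = g x := by
    intro a b ha hab
    by_contra hcon
    push Not at hcon
    have h1 : volume.restrict (Ioi (0 : ℝ)) {x | ¬ Q x = g x} = 0 := h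
    have h2 : Ioo a b ⊆ {x | ¬ Q x = g x} := fun x hx => hcon x hx.1 hx.2
    have h3 : volume.restrict (Ioi (0 : ℝ)) (Ioo a b) = 0 := measure_mono_null h2 h1
    rw [Measure.restrict_apply measurableSet_Ioo] at h3
    have h4 : Ioo a b ∩ Ioi 0 = Ioo a b := by
      apply inter_eq_left.2
      intro x hx
      exact lt_of_le_of_lt ha hx.1
    rw [h4, Real.volume_Ioo, ENNReal.ofReal_eq_zero] at h3
    linarith
  intro u hu
  apply le_antisymm
  · by_contra hc
    push Not at hc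
    have h1 : ∀ᶠ x in 𝓝 u, g x < Q u := (hg.tendsto u).eventually (gt_mem_nhds hc)
    obtain ⟨e, he, hball⟩ := Metric.eventually_nhds_iff.1 h1
    obtain ⟨x, hx1, hx2, hx3⟩ := hd u (u + e) hu.le (by linarith)
    have h2 : g x < Q u := hball (by rw [Real.dist_eq, abs_of_pos (by linarith)]; linarith)
    have h3 : Q u ≤ Q x := hQ hx1.le
    linarith
  · by_contra hc
    push Not at hc
    have h1 : ∀ᶠ x in 𝓝 u, Q u < g x := (hg.tendsto u).eventually (lt_mem_nhds hc)
    obtain ⟨e, he, hball⟩ := Metric.eventually_nhds_iff.1 h1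
    obtain ⟨x, hx1, hx2, hx3⟩ := hd (max 0 (u - e)) u (le_max_left _ _)
      (max_lt hu (by linarith))
    have hx4 : u - e < x := lt_of_le_of_lt (le_max_right _ _) hx1
    have h2 : Q u < g x := hball (by rw [Real.dist_eq, abs_sub_comm, abs_of_pos (by linarith)]; linarith)
    have h3 : Q x ≤ Q u := hQ hx2.le
    linarith

/-- the set-up for the limit functions -/
structure Seq (F : ℕ → ℝ → ℝ) (C0 : ℝ) : Prop where
  mono : ∀ j, Monotone (F j)
  bd : ∀ j u, |F j u| ≤ C0 * (1 + |u|)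
  orth : ∀ ψ, Tst ψ → Tendsto (fun j => ∫ u in Ioi (0 : ℝ), dt ψ u * F j u) atTop
    (𝓝 (∫ u in Ioi (0 : ℝ), dt ψ u * (1 + 2 * G u)))

lemma Seq.sub {F : ℕ → ℝ → ℝ} {C0 : ℝ} (h : Seq F C0) {φ : ℕ → ℕ} (hφ : Tendsto φ atTop atTop) :
    Seq (fun j => F (φ j)) C0 :=
  ⟨fun j => h.mono _, fun j => h.bd _, fun ψ hψ => (h.orth ψ hψ).comp hφ⟩

/-- the limit function -/
lemma limitFn (hHELLY : S_HELLY) (hDEC : S_DEC) (hIBG : S_IBG) {F : ℕ → ℝ → ℝ} {C0 : ℝ}
    (h : Seq F C0) : ∃ (φ : ℕ → ℕ) (Q : ℝ → ℝ), StrictMono φ ∧ Monotone Q ∧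
      (∀ u, ContinuousAt Q u → Tendsto (fun j => F (φ j) u) atTop (𝓝 (Q u))) ∧
      Measurable (fun u => Q u - (1 + 2 * G u)) ∧
      (∀ᵐ u ∂(volume.restrict (Ioi (0 : ℝ))), |Q u - (1 + 2 * G u)| ≤ (C0 + 2) * (1 + u)) ∧
      ∀ ψ, Tst ψ → ∫ u in Ioi (0 : ℝ), dt ψ u * (Q u - (1 + 2 * G u)) = 0 := by
  obtain ⟨φ, Q, hφ, hQ, hlim⟩ := hHELLY F (fun u => C0 * (1 + |u|)) h.mono h.bd
  have hcnt : Set.Countable {u | ¬ ContinuousAt Q u} := hQ.countable_not_continuousAt
  have hae : ∀ᵐ u ∂(volume.restrict (Ioi (0 : ℝ))), ContinuousAt Q u :=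
    ae_restrict_of_ae (by
      rw [ae_iff]
      exact hcnt.measure_zero _)
  have hpos : ∀ᵐ u ∂(volume.restrict (Ioi (0 : ℝ))), 0 < u := ae_restrict_mem measurableSet_Ioi
  have hQb : ∀ u, ContinuousAt Q u → |Q u| ≤ C0 * (1 + |u|) := by
    intro u hu
    exact le_of_tendsto (hlim u hu).abs (Filter.Eventually.of_forall fun j => h.bd _ _)
  refine ⟨φ, Q, hφ, hQ, hlim, ?_, ?_, ?_⟩
  · exact hQ.measurable.sub (G_cont.measurable.const_mul 2 |>.const_add 1)
  · filter_upwards [hae, hpos] with u h1 h2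
    have h3 := hQb u h1
    rw [abs_of_pos h2] at h3
    have h4 := G_nonneg h2.le
    have h5 := G_le h2.le
    have h6 : |1 + 2 * G u| ≤ 2 * (1 + u) := by
      rw [abs_of_nonneg (by linarith)]; linarith
    calc |Q u - (1 + 2 * G u)| ≤ |Q u| + |1 + 2 * G u| := abs_sub _ _
      _ ≤ C0 * (1 + u) + 2 * (1 + u) := add_le_add h3 h6
      _ = _ := by ring
  · intro ψ hψ
    obtain ⟨hder, hcont, hdec⟩ := hDEC ψ hψ
    obtain ⟨K, hK, hKb⟩ := hdec 3
    have hC0 : 0 ≤ C0 := by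
      have := h.bd 0 0
      simp at this
      exact (abs_nonneg _).trans this
    -- dominating function
    have hdom : ∀ u : ℝ, 0 < u → |dt ψ u| * (C0 * (1 + |u|)) ≤ K * C0 * (1 + u) ^ (-2 : ℝ) := by
      intro u hu
      have h1 := (hKb u).2
      rw [abs_of_pos hu] at h1 ⊢
      have h2 : 0 < 1 + u := by linarith
      have h3 : (1 + u) ^ (-2 : ℝ) = ((1 + u) ^ 2)⁻¹ := by
        rw [Real.rpow_neg h2.le]; norm_cast
      rw [h3, ← div_eq_mul_inv, le_div_iff₀ (by positivity)]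
      calc |dt ψ u| * (C0 * (1 + u)) * (1 + u) ^ 2 = (|dt ψ u| * (1 + u) ^ 3) * C0 := by ring
        _ ≤ K * C0 := mul_le_mul_of_nonneg_right h1 hC0
    have hint : IntegrableOn (fun u : ℝ => K * C0 * (1 + u) ^ (-2 : ℝ)) (Ioi 0) := by
      apply Integrable.const_mul
      have h1 := integrableOn_Ioi_rpow_of_lt (a := -2) (by norm_num) (show (0 : ℝ) < 1 by norm_num)
      have h2 : (fun u : ℝ => (1 + u) ^ (-2 : ℝ)) = fun u => (fun x : ℝ => x ^ (-2 : ℝ)) (u + 1) := by
        ext u; rw [add_comm]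
      rw [h2]
      have h3 := (measurePreserving_add_right volume (1 : ℝ)).integrableOn_comp_preimage
        (MeasurableEquiv.addRight (1 : ℝ)).measurableEmbedding
        (f := fun x : ℝ => x ^ (-2 : ℝ)) (s := Ioi 1)
      have h4 : (fun x : ℝ => x + 1) ⁻¹' Ioi 1 = Ioi 0 := by
        ext x; simp
      rw [h4] at h3
      exact h3.2 h1
    have hlimI : Tendsto (fun j => ∫ u in Ioi (0 : ℝ), dt ψ u * F (φ j) u) atTop
        (𝓝 (∫ u in Ioi (0 : ℝ), dt ψ u * Q u)) := by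
      refine tendsto_integral_of_dominated_convergence
        (fun u => K * C0 * (1 + u) ^ (-2 : ℝ)) ?_ hint ?_ ?_
      · intro j
        exact (hcont.measurable.mul (h.mono _).measurable).aestronglyMeasurable
      · intro j
        filter_upwards [hpos] with u hu
        rw [norm_mul, Real.norm_eq_abs, Real.norm_eq_abs]
        refine le_trans ?_ (hdom u hu)
        exact mul_le_mul_of_nonneg_left (h.bd _ _) (abs_nonneg _)
      · filter_upwards [hae] with u hu
        exact (hlim u hu).const_mul _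
    have huniq := tendsto_nhds_unique hlimI ((h.orth ψ hψ).comp hφ.tendsto_atTop)
    have hi1 : IntegrableOn (fun u => dt ψ u * Q u) (Ioi 0) := by
      refine Integrable.mono' hint (hcont.measurable.mul hQ.measurable).aestronglyMeasurable ?_
      filter_upwards [hpos, hae] with u hu hu2
      rw [norm_mul, Real.norm_eq_abs, Real.norm_eq_abs]
      exact (mul_le_mul_of_nonneg_left (hQb u hu2) (abs_nonneg _)).trans (hdom u hu)
    obtain ⟨hi2, -⟩ := hIBG hDEC ψ hψ
    have : ∀ u, dt ψ u * (Q u - (1 + 2 * G u)) = dt ψ u * Q u - dt ψ u * (1 + 2 * G u) := by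
      intro u; ring
    simp_rw [this]
    rw [integral_sub hi1 hi2, huniq, sub_self]

/-- from the vanishing of the deviation of the limit function to the limit -/
lemma conclude {F : ℕ → ℝ → ℝ} {φ : ℕ → ℕ} {Q : ℝ → ℝ} (hQ : Monotone Q)
    (hlim : ∀ u, ContinuousAt Q u → Tendsto (fun j => F (φ j) u) atTop (𝓝 (Q u)))
    (h0 : ∀ᵐ u ∂(volume.restrict (Ioi (0 : ℝ))), Q u - (1 + 2 * G u) = 0) (u : ℝ) (hu : 0 < u) :
    Tendsto (fun j => F (φ j) u) atTop (𝓝 (1 + 2 * G u)) := by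
  have hgc : Continuous fun u => 1 + 2 * G u := continuous_const.add (G_cont.const_mul 2)
  have h1 : ∀ u, 0 < u → Q u = 1 + 2 * G u := by
    apply mono_eq hQ hgc
    filter_upwards [h0] with v hv
    linarith
  have h2 : ContinuousAt Q u := by
    refine (hgc.continuousAt (x := u)).congr ?_
    filter_upwards [lt_mem_nhds hu] with v hv
    exact (h1 v hv).symm
  have h3 := hlim u h2
  rwa [h1 u hu] at h3

/-- **the abstract core, cumulative form** -/
theorem core_abs (hHELLY : S_HELLY) (hDEC : S_DEC) (hIBG : S_IBG) (hTEST : S_TEST)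
    (hDET : S_DET) (hUNIQ : S_UNIQ) {F : ℕ → ℝ → ℝ} {C0 : ℝ} (h : Seq F C0) (σ : ℝ)
    (hσ : σ = 1 ∨ σ = -1) (C c : ℝ) (hc : 0 < c)
    (hlow : ∀ u : ℝ, 0 < u → ∀ ε : ℝ, 0 < ε → ∀ᶠ j in atTop,
      -(C * Real.exp (-(c * u)) + ε) ≤ σ * (F j u - (1 + 2 * G u))) :
    ∀ u : ℝ, 0 < u → Tendsto (fun j => F j u) atTop (𝓝 (1 + 2 * G u)) := by
  intro u0 hu0
  apply tendsto_of_subseq_tendsto
  intro ns hns
  have hF := h.sub hns
  obtain ⟨φ, Q, hφ, hQ, hlim, hm, hb, ho⟩ := limitFn hHELLY hDEC hIBG hF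
  refine ⟨φ, ?_⟩
  apply conclude (F := fun j => F (ns j)) hQ hlim _ u0 hu0
  have hcnt : Set.Countable {u | ¬ ContinuousAt Q u} := hQ.countable_not_continuousAt
  have hae : ∀ᵐ u ∂(volume.restrict (Ioi (0 : ℝ))), ContinuousAt Q u :=
    ae_restrict_of_ae (by
      rw [ae_iff]
      exact hcnt.measure_zero _)
  have hpos : ∀ᵐ u ∂(volume.restrict (Ioi (0 : ℝ))), 0 < u := ae_restrict_mem measurableSet_Ioi
  set C' : ℝ := max (C0 + 2) C with hC'
  have hlow2 : ∀ᵐ u ∂(volume.restrict (Ioi (0 : ℝ))),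
      -(C' * Real.exp (-(c * u))) ≤ σ * (Q u - (1 + 2 * G u)) := by
    filter_upwards [hae, hpos] with u h1 h2
    have h3 : Tendsto (fun j => σ * (F (ns (φ j)) u - (1 + 2 * G u))) atTop
        (𝓝 (σ * (Q u - (1 + 2 * G u)))) := ((hlim u h1).sub_const _).const_mul _
    have h4 : ∀ ε : ℝ, 0 < ε → -(C * Real.exp (-(c * u)) + ε) ≤ σ * (Q u - (1 + 2 * G u)) := by
      intro ε hε
      refine ge_of_tendsto h3 ?_
      exact (hns.comp hφ.tendsto_atTop).eventually (hlow u h2 ε hε)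
    have h5 : -(C * Real.exp (-(c * u))) ≤ σ * (Q u - (1 + 2 * G u)) := by
      apply le_of_forall_pos_sub_le
      intro ε hε
      have := h4 ε hε
      linarith
    have h6 : C * Real.exp (-(c * u)) ≤ C' * Real.exp (-(c * u)) :=
      mul_le_mul_of_nonneg_right (le_max_right _ _) (Real.exp_pos _).le
    linarith
  have hb2 : ∀ᵐ u ∂(volume.restrict (Ioi (0 : ℝ))),
      |σ * (Q u - (1 + 2 * G u))| ≤ C' * (1 + u) := by
    filter_upwards [hb, hpos] with u h1 h2
    have h3 : |σ| = 1 := by rcases hσ with h | h <;> rw [h] <;> norm_num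
    rw [abs_mul, h3, one_mul]
    refine h1.trans (mul_le_mul_of_nonneg_right (le_max_left _ _) (by linarith))
  have ho2 : ∀ ψ, Tst ψ → ∫ u in Ioi (0 : ℝ), dt ψ u * (σ * (Q u - (1 + 2 * G u))) = 0 := by
    intro ψ hψ
    have : ∀ u, dt ψ u * (σ * (Q u - (1 + 2 * G u))) = σ * (dt ψ u * (Q u - (1 + 2 * G u))) := by
      intro u; ring
    simp_rw [this]
    rw [integral_const_mul, ho ψ hψ, mul_zero]
  have h0 := hUNIQ hTEST hDET (fun u => σ * (Q u - (1 + 2 * G u))) (hm.const_mul _) C' c hc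
    hb2 hlow2 ho2
  filter_upwards [h0] with u h1
  have h2 : σ ≠ 0 := by rcases hσ with h | h <;> rw [h] <;> norm_num
  exact (mul_eq_zero.1 h1).resolve_left h2

/-- **the abstract core, windows** -/
theorem corew_abs (hHELLY : S_HELLY) (hDEC : S_DEC) (hIBG : S_IBG) (hTEST : S_TEST)
    (hDET : S_DET) (hUNIQ : S_UNIQ) (hMONO : S_MONO) {F : ℕ → ℝ → ℝ} {C0 : ℝ} (h : Seq F C0)
    (σ : ℝ) (hσ : σ = 1 ∨ σ = -1) (A : ℝ) (hA : 0 < A)
    (hwin : ∀ a b : ℝ, A < a → a < b → ∀ ε : ℝ, 0 < ε → ∀ᶠ j in atTop,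
      -ε ≤ σ * ((F j b - (1 + 2 * G b)) - (F j a - (1 + 2 * G a)))) :
    ∀ u : ℝ, 0 < u → Tendsto (fun j => F j u) atTop (𝓝 (1 + 2 * G u)) := by
  intro u0 hu0
  apply tendsto_of_subseq_tendsto
  intro ns hns
  have hF := h.sub hns
  obtain ⟨φ, Q, hφ, hQ, hlim, hm, hb, ho⟩ := limitFn hHELLY hDEC hIBG hF
  refine ⟨φ, ?_⟩
  apply conclude (F := fun j => F (ns j)) hQ hlim _ u0 hu0
  have hcnt : Set.Countable {u | ¬ ContinuousAt Q u} := hQ.countable_not_continuousAt
  have hae : ∀ᵐ u ∂(volume.restrict (Ioi (0 : ℝ))), ContinuousAt Q u :=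
    ae_restrict_of_ae (by
      rw [ae_iff]
      exact hcnt.measure_zero _)
  have hpos : ∀ᵐ u ∂(volume.restrict (Ioi (0 : ℝ))), 0 < u := ae_restrict_mem measurableSet_Ioi
  have hσ0 : σ ≠ 0 := by rcases hσ with h | h <;> rw [h] <;> norm_num
  have hσ1 : |σ| = 1 := by rcases hσ with h | h <;> rw [h] <;> norm_num
  have hσ1' : |-σ| = 1 := by rw [abs_neg, hσ1]
  have hb2 : ∀ᵐ u ∂(volume.restrict (Ioi (0 : ℝ))),
      |σ * (Q u - (1 + 2 * G u))| ≤ (C0 + 2) * (1 + u) := by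
    filter_upwards [hb] with u h1
    rwa [abs_mul, hσ1, one_mul]
  have ho2 : ∀ τ : ℝ, ∀ ψ, Tst ψ →
      ∫ u in Ioi (0 : ℝ), dt ψ u * (τ * (Q u - (1 + 2 * G u))) = 0 := by
    intro τ ψ hψ
    have : ∀ u, dt ψ u * (τ * (Q u - (1 + 2 * G u))) = τ * (dt ψ u * (Q u - (1 + 2 * G u))) := by
      intro u; ring
    simp_rw [this]
    rw [integral_const_mul, ho ψ hψ, mul_zero]
  have hone := hMONO hTEST (fun u => σ * (Q u - (1 + 2 * G u))) (hm.const_mul _) (C0 + 2) A hA
    hb2 (ho2 σ) {u | ¬ ContinuousAt Q u} hcnt (by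
      intro a b ha hb' hAa hab
      have ha' : ContinuousAt Q a := not_not.1 ha
      have hb'' : ContinuousAt Q b := not_not.1 hb'
      have h3 : Tendsto (fun j => σ * ((F (ns (φ j)) b - (1 + 2 * G b)) -
          (F (ns (φ j)) a - (1 + 2 * G a)))) atTop
          (𝓝 (σ * ((Q b - (1 + 2 * G b)) - (Q a - (1 + 2 * G a))))) :=
        (((hlim b hb'').sub_const _).sub ((hlim a ha').sub_const _)).const_mul _
      have h5 : 0 ≤ σ * ((Q b - (1 + 2 * G b)) - (Q a - (1 + 2 * G a))) := by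
        apply le_of_forall_pos_sub_le
        intro ε hε
        have h6 : -ε ≤ σ * ((Q b - (1 + 2 * G b)) - (Q a - (1 + 2 * G a))) :=
          ge_of_tendsto h3 ((hns.comp hφ.tendsto_atTop).eventually (hwin a b hAa hab ε hε))
        linarith
      show σ * (Q a - (1 + 2 * G a)) ≤ σ * (Q b - (1 + 2 * G b))
      linarith)
  -- the lower bound for `-σ` times the deviation
  have hC0 : 0 ≤ C0 := by
    have := h.bd 0 0
    simp at this
    exact (abs_nonneg _).trans this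
  set C' : ℝ := (C0 + 2) * (1 + A) * Real.exp A with hC'
  have hC'1 : C0 + 2 ≤ C' := by
    have h1 : (1 : ℝ) ≤ Real.exp A := Real.one_le_exp hA.le
    calc C0 + 2 = (C0 + 2) * 1 * 1 := by ring
      _ ≤ (C0 + 2) * (1 + A) * Real.exp A := by gcongr; linarith
  have hlow : ∀ᵐ u ∂(volume.restrict (Ioi (0 : ℝ))),
      -(C' * Real.exp (-(1 * u))) ≤ (-σ) * (Q u - (1 + 2 * G u)) := by
    filter_upwards [hae, hpos, hb2] with u h1 h2 h3
    rcases lt_or_ge A u with h4 | h4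
    · have h5 := hone u (not_not.2 h1) h4
      have h6 : 0 ≤ C' * Real.exp (-(1 * u)) := by positivity
      have h7 : σ * (Q u - (1 + 2 * G u)) ≤ 0 := h5
      linarith
    · have h5 : (C0 + 2) * (1 + u) ≤ C' * Real.exp (-(1 * u)) := by
        rw [hC', mul_assoc ((C0 + 2) * (1 + A)), ← Real.exp_add]
        have h6 : (1 : ℝ) ≤ Real.exp (A + -(1 * u)) := Real.one_le_exp (by linarith)
        calc (C0 + 2) * (1 + u) ≤ (C0 + 2) * (1 + A) * 1 := by
              rw [mul_one]; gcongr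
          _ ≤ _ := by gcongr
      have h6 := (abs_le.1 h3).2
      linarith
  have hb3 : ∀ᵐ u ∂(volume.restrict (Ioi (0 : ℝ))),
      |(-σ) * (Q u - (1 + 2 * G u))| ≤ C' * (1 + u) := by
    filter_upwards [hb2, hpos] with u h1 h2
    rw [neg_mul, abs_neg]
    exact h1.trans (mul_le_mul_of_nonneg_right hC'1 (by linarith))
  have h0 := hUNIQ hTEST hDET (fun u => (-σ) * (Q u - (1 + 2 * G u))) (hm.const_mul _) C' 1
    one_pos hb3 hlow (ho2 (-σ))
  filter_upwards [h0] with u h1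
  exact (mul_eq_zero.1 h1).resolve_left (neg_ne_zero.2 hσ0)

end W207.PR
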