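import Pool.Agent.W207.PR.Abs
import Pool.Agent.W207.PR.A1

/-! # The abstract core: windows of fixed lengths -/

open Filter Topology Set MeasureTheory
open scoped BigOperators

namespace W207.PR

/-- the odd extension of the deviation -/
noncomputable def oe (Q : ℝ → ℝ) (u : ℝ) : ℝ :=
  if 0 < u then Q u - (1 + 2 * G u) else if u < 0 then -(Q (-u) - (1 + 2 * G (-u))) else 0

lemma oe_pos {Q : ℝ → ℝ} {u : ℝ} (h : 0 < u) : oe Q u = Q u - (1 + 2 * G u) := by
  unfold oe; rw [if_pos h]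

lemma oe_odd (Q : ℝ → ℝ) (u : ℝ) : oe Q (-u) = -oe Q u := by
  unfold oe
  rcases lt_trichotomy u 0 with h | h | h
  · rw [if_pos (by linarith : 0 < -u), if_neg (by linarith : ¬ 0 < u), if_pos h, neg_neg]
  · subst h; simp
  · rw [if_neg (by linarith : ¬ 0 < -u), if_pos (by linarith : -u < 0), if_pos h, neg_neg]

lemma oe_meas {Q : ℝ → ℝ} (hQ : Monotone Q) : Measurable (oe Q) := by
  unfold oe
  have h1 : Measurable fun u => Q u - (1 + 2 * G u) :=
    hQ.measurable.sub ((G_cont.measurable.const_mul 2).const_add 1)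
  refine Measurable.ite measurableSet_Ioi h1 (Measurable.ite measurableSet_Iio ?_ measurable_const)
  exact (h1.comp measurable_neg).neg

lemma ae_real {p : ℝ → Prop} (h1 : ∀ᵐ u ∂(volume.restrict (Ioi (0 : ℝ))), p u)
    (h2 : ∀ᵐ u ∂(volume.restrict (Ioi (0 : ℝ))), p (-u)) : ∀ᵐ u : ℝ, p u := by
  rw [ae_restrict_iff' measurableSet_Ioi] at h1 h2
  have h3 : ∀ᵐ u : ℝ, -u ∈ Ioi (0 : ℝ) → p (-(-u)) :=
    (Measure.measurePreserving_neg (volume : Measure ℝ)).quasiMeasurePreserving.ae h2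
  have h0 : ∀ᵐ u : ℝ, u ≠ 0 := by
    rw [ae_iff]; simp
  filter_upwards [h1, h3, h0] with u g1 g2 g3
  rcases lt_or_gt_of_ne g3 with h | h
  · have := g2 (by show 0 < -u; linarith)
    rwa [neg_neg] at this
  · exact g1 h

/-- one-sided bound for the windows of length `ℓ` of all limit functions -/
def LimB (F : ℕ → ℝ → ℝ) (ℓ σ C c : ℝ) : Prop :=
  ∀ θ : ℕ → ℕ, Tendsto θ atTop atTop → ∀ Q : ℝ → ℝ, Monotone Q →
    (∀ u, ContinuousAt Q u → Tendsto (fun j => F (θ j) u) atTop (𝓝 (Q u))) →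
    ∀ a : ℝ, 0 < a → ContinuousAt Q a → ContinuousAt Q (a + ℓ) →
      -(C * Real.exp (-(c * a))) ≤
        σ * ((Q (a + ℓ) - (1 + 2 * G (a + ℓ))) - (Q a - (1 + 2 * G a)))

/-- from upper bounds -/
lemma limB_upper {F : ℕ → ℝ → ℝ} {ℓ C c : ℝ}
    (h : ∀ a : ℝ, 0 < a → ∀ ε : ℝ, 0 < ε → ∀ᶠ j in atTop,
      F j (a + ℓ) - F j a ≤ 2 * (G (a + ℓ) - G a) + (C * Real.exp (-(c * a)) + ε)) :
    LimB F ℓ (-1) C c := by
  intro θ hθ Q hQ hlim a ha hca hcb
  have h3 : Tendsto (fun j => F (θ j) (a + ℓ) - F (θ j) a) atTop (𝓝 (Q (a + ℓ) - Q a)) :=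
    (hlim _ hcb).sub (hlim _ hca)
  have h4 : Q (a + ℓ) - Q a ≤ 2 * (G (a + ℓ) - G a) + C * Real.exp (-(c * a)) := by
    apply le_of_forall_pos_sub_le
    intro ε hε
    have h5 : Q (a + ℓ) - Q a ≤ 2 * (G (a + ℓ) - G a) + (C * Real.exp (-(c * a)) + ε) :=
      le_of_tendsto h3 (hθ.eventually (h a ha ε hε))
    linarith
  linarith

/-- from lower bounds for closed windows -/
lemma limB_lower {F : ℕ → ℝ → ℝ} {ℓ C c : ℝ}
    (h : ∀ a : ℝ, 0 < a → ∀ δ : ℝ, 0 < δ → ∀ ε : ℝ, 0 < ε → ∀ᶠ j in atTop,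
      2 * (G (a + ℓ) - G a) - (C * Real.exp (-(c * a)) + ε) ≤ F j (a + ℓ) - F j (a - δ)) :
    LimB F ℓ 1 C c := by
  intro θ hθ Q hQ hlim a ha hca hcb
  have hcnt : Set.Countable {u | ¬ ContinuousAt Q u} := hQ.countable_not_continuousAt
  have hdense : Dense {u | ContinuousAt Q u} := by
    have : {u | ContinuousAt Q u} = {u | ¬ ContinuousAt Q u}ᶜ := by
      ext u; simp
    rw [this]
    exact hcnt.dense_compl ℝ
  have h4 : ∀ ε : ℝ, 0 < ε → 2 * (G (a + ℓ) - G a) - (C * Real.exp (-(c * a)) + ε) ≤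
      Q (a + ℓ) - Q a := by
    intro ε hε
    obtain ⟨r, hr, hball⟩ := Metric.continuousAt_iff.1 hca (ε / 2) (by positivity)
    obtain ⟨b, hb1, hb2⟩ := hdense.exists_mem_open isOpen_Ioo
      (show (Ioo (a - r) a).Nonempty from ⟨a - r / 2, by constructor <;> linarith⟩)
    have hδ : 0 < a - b := by linarith [hb2.2]
    have h5 := h a ha (a - b) hδ (ε / 2) (by positivity)
    rw [show a - (a - b) = b by ring] at h5
    have h3 : Tendsto (fun j => F (θ j) (a + ℓ) - F (θ j) b) atTop (𝓝 (Q (a + ℓ) - Q b)) :=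
      (hlim _ hcb).sub (hlim _ hb1)
    have h6 := ge_of_tendsto h3 (hθ.eventually h5)
    have h7 : dist (Q b) (Q a) < ε / 2 := hball (by
      rw [Real.dist_eq, abs_sub_comm, abs_of_pos hδ]; linarith [hb2.1])
    rw [Real.dist_eq] at h7
    have h8 := (abs_lt.1 h7).1
    linarith
  have h5 : 2 * (G (a + ℓ) - G a) - C * Real.exp (-(c * a)) ≤ Q (a + ℓ) - Q a := by
    apply le_of_forall_pos_sub_le
    intro ε hε
    have := h4 ε hε
    linarith
  linarith

/-- **the abstract core, windows of fixed lengths** -/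
theorem core2_abs (hHELLY : S_HELLY) (hDEC : S_DEC) (hIBG : S_IBG) (hTESTE : S_TESTE)
    (hDET : S_DET) (hUNIQE : S_UNIQE) (hSHIFT : S_SHIFT) (hDIFF : S_DIFF) (hDENSE : S_DENSE)
    {F : ℕ → ℝ → ℝ} {C0 : ℝ} (h : Seq F C0) (L : Set ℝ) (hL : ∀ ℓ ∈ L, 0 < ℓ)
    (hdense : Dense (AddSubgroup.closure L : Set ℝ))
    (hwin : ∀ ℓ ∈ L, ∃ σ : ℝ, (σ = 1 ∨ σ = -1) ∧ ∃ C c : ℝ, 0 < c ∧ LimB F ℓ σ C c) :
    ∀ u : ℝ, 0 < u → Tendsto (fun j => F j u) atTop (𝓝 (1 + 2 * G u)) := by
  intro u0 hu0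
  apply tendsto_of_subseq_tendsto
  intro ns hns
  have hF := h.sub hns
  obtain ⟨φ, Q, hφ, hQ, hlim, hm, hb, ho⟩ := limitFn hHELLY hDEC hIBG hF
  refine ⟨φ, ?_⟩
  apply conclude (F := fun j => F (ns j)) hQ hlim _ u0 hu0
  have hC0 : 0 ≤ C0 := by
    have := h.bd 0 0
    simp at this
    exact (abs_nonneg _).trans this
  have hcnt : Set.Countable {u | ¬ ContinuousAt Q u} := hQ.countable_not_continuousAt
  have hcae : ∀ᵐ u : ℝ, ContinuousAt Q u := by
    rw [ae_iff]
    exact hcnt.measure_zero _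
  have hpos : ∀ᵐ u ∂(volume.restrict (Ioi (0 : ℝ))), 0 < u := ae_restrict_mem measurableSet_Ioi
  set O := oe Q with hO
  have hOm : Measurable O := oe_meas hQ
  have hOodd : ∀ u, O (-u) = -O u := oe_odd Q
  have hOb : ∀ᵐ u : ℝ, |O u| ≤ (C0 + 2) * (1 + |u|) := by
    have h1 : ∀ᵐ u ∂(volume.restrict (Ioi (0 : ℝ))), |O u| ≤ (C0 + 2) * (1 + |u|) := by
      filter_upwards [hb, hpos] with u g1 g2
      rw [hO, oe_pos g2, abs_of_pos g2]
      exact g1
    refine ae_real h1 ?_
    filter_upwards [h1] with u g1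
    rw [hOodd, abs_neg, abs_neg]
    exact g1
  have hOo : ∀ ψ, Tst ψ → ∫ u in Ioi (0 : ℝ), dt ψ u * O u = 0 := by
    intro ψ hψ
    have hfun : Set.EqOn (fun u => dt ψ u * O u) (fun u => dt ψ u * (Q u - (1 + 2 * G u)))
        (Ioi (0 : ℝ)) := by
      intro u hu
      show dt ψ u * O u = dt ψ u * (Q u - (1 + 2 * G u))
      rw [hO, oe_pos hu]
    rw [setIntegral_congr_fun measurableSet_Ioi hfun]
    exact ho ψ hψ
  -- the periods
  have hper : ∀ ℓ ∈ L, ∀ᵐ u : ℝ, O (u + ℓ) = O u := by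
    intro ℓ hℓ
    have hℓ0 := hL ℓ hℓ
    obtain ⟨σ, hσ, C, c, hc, hw⟩ := hwin ℓ hℓ
    have hσ0 : σ ≠ 0 := by rcases hσ with h | h <;> rw [h] <;> norm_num
    have hσ1 : |σ| = 1 := by rcases hσ with h | h <;> rw [h] <;> norm_num
    set s : ℝ := ℓ / 2 with hs
    have hs0 : 0 < s := by positivity
    set E : ℝ → ℝ := fun v => O (v + s) - O (v - s) with hE
    have hEm : Measurable E := (hOm.comp (measurable_add_const s)).sub
      (hOm.comp (measurable_sub_const s))
    have hEe : ∀ v, E (-v) = E v := by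
      intro v
      show O (-v + s) - O (-v - s) = O (v + s) - O (v - s)
      rw [show -v + s = -(v - s) by ring, show -v - s = -(v + s) by ring, hOodd, hOodd]
      ring
    -- translates of a.e. statements
    have htr : ∀ (p : ℝ → Prop), (∀ᵐ u : ℝ, p u) → ∀ t : ℝ, ∀ᵐ v : ℝ, p (v + t) := fun p hp t =>
      (measurePreserving_add_right volume t).quasiMeasurePreserving.ae hp
    have hEb : ∀ᵐ v ∂(volume.restrict (Ioi (0 : ℝ))), |E v| ≤ 2 * (C0 + 2) * (1 + s) * (1 + v) := by
      filter_upwards [ae_restrict_of_ae (htr _ hOb s), ae_restrict_of_ae (htr _ hOb (-s)), hpos]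
        with v g1 g2 g3
      have e1 : |v + s| ≤ v + s := by rw [abs_of_pos (by linarith)]
      have e2 : |v + -s| ≤ v + s := by
        rw [abs_le]; constructor <;> linarith
      have e3 : |E v| ≤ |O (v + s)| + |O (v + -s)| := by
        show |O (v + s) - O (v - s)| ≤ _
        rw [sub_eq_add_neg v s]
        exact abs_sub _ _
      have e4 : (C0 + 2) * (1 + |v + s|) ≤ (C0 + 2) * ((1 + s) * (1 + v)) := by
        apply mul_le_mul_of_nonneg_left _ (by linarith)
        nlinarith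
      have e5 : (C0 + 2) * (1 + |v + -s|) ≤ (C0 + 2) * ((1 + s) * (1 + v)) := by
        apply mul_le_mul_of_nonneg_left _ (by linarith)
        nlinarith
      calc |E v| ≤ (C0 + 2) * ((1 + s) * (1 + v)) + (C0 + 2) * ((1 + s) * (1 + v)) := by linarith
        _ = _ := by ring
    set C2 : ℝ := 2 * (C0 + 2) * (1 + s) with hC2
    have hC20 : 0 ≤ C2 := by positivity
    set C' : ℝ := max (C2 * (1 + s) * Real.exp (c * s)) (C * Real.exp (c * s)) with hC'
    have hC'2 : C2 ≤ C' := by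
      refine le_trans ?_ (le_max_left _ _)
      have h1 : (1 : ℝ) ≤ Real.exp (c * s) := Real.one_le_exp (by positivity)
      calc C2 = C2 * 1 * 1 := by ring
        _ ≤ C2 * (1 + s) * Real.exp (c * s) := by gcongr; linarith
    have hσEb : ∀ᵐ v ∂(volume.restrict (Ioi (0 : ℝ))), |σ * E v| ≤ C' * (1 + v) := by
      filter_upwards [hEb, hpos] with v g1 g2
      rw [abs_mul, hσ1, one_mul]
      exact g1.trans (mul_le_mul_of_nonneg_right hC'2 (by linarith))
    have hσE : ∀ᵐ v ∂(volume.restrict (Ioi (0 : ℝ))),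
        -(C' * Real.exp (-(c * v))) ≤ σ * E v := by
      filter_upwards [ae_restrict_of_ae (htr _ hcae s), ae_restrict_of_ae (htr _ hcae (-s)),
        hpos, hEb] with v g1 g2 g3 g4
      rcases le_or_gt v s with hvs | hvs
      · have h1 : |σ * E v| ≤ C2 * (1 + s) := by
          rw [abs_mul, hσ1, one_mul]
          exact g4.trans (mul_le_mul_of_nonneg_left (by linarith) hC20)
        have h2 : C2 * (1 + s) ≤ C' * Real.exp (-(c * v)) := by
          calc C2 * (1 + s) = C2 * (1 + s) * 1 := by ring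
            _ ≤ C2 * (1 + s) * (Real.exp (c * s) * Real.exp (-(c * v))) := by
                apply mul_le_mul_of_nonneg_left _ (by positivity)
                rw [← Real.exp_add]
                apply Real.one_le_exp
                nlinarith
            _ = C2 * (1 + s) * Real.exp (c * s) * Real.exp (-(c * v)) := by ring
            _ ≤ C' * Real.exp (-(c * v)) :=
                mul_le_mul_of_nonneg_right (le_max_left _ _) (Real.exp_pos _).le
        have h3 := (abs_le.1 h1).1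
        linarith
      · set a : ℝ := v + -s with ha
        have ha0 : 0 < a := by rw [ha]; linarith
        have hal : a + ℓ = v + s := by rw [ha, hs]; ring
        have hca : ContinuousAt Q a := g2
        have hcb : ContinuousAt Q (a + ℓ) := by rw [hal]; exact g1
        have h4 := hw (fun j => ns (φ j)) (hns.comp hφ.tendsto_atTop) Q hQ hlim a ha0 hca hcb
        have h5 : E v = (Q (a + ℓ) - (1 + 2 * G (a + ℓ))) - (Q a - (1 + 2 * G a)) := by
          show O (v + s) - O (v - s) = _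
          rw [sub_eq_add_neg v s, ← hal, ← ha, hO, oe_pos ha0, oe_pos (by linarith)]
        rw [h5]
        refine le_trans ?_ h4
        have h6 : C * Real.exp (-(c * a)) ≤ C' * Real.exp (-(c * v)) := by
          have e1 : -(c * a) = c * s + -(c * v) := by rw [ha]; ring
          rw [e1, Real.exp_add, ← mul_assoc]
          exact mul_le_mul_of_nonneg_right (le_max_right _ _) (Real.exp_pos _).le
        linarith
    have hσo : ∀ ψ, Tst ψ → ∫ u in Ioi (0 : ℝ), ct ψ u * (σ * E u) = 0 := by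
      intro ψ hψ
      have h1 := hDIFF hDEC hSHIFT O hOm hOodd (C0 + 2) hOb hOo s hs0 ψ hψ
      have : ∀ u, ct ψ u * (σ * E u) = σ * (ct ψ u * (O (u + s) - O (u - s))) := by
        intro u
        show ct ψ u * (σ * (O (u + s) - O (u - s))) = _
        ring
      simp_rw [this]
      rw [integral_const_mul, h1, mul_zero]
    have h0 := hUNIQE hTESTE hDET (fun v => σ * E v) (hEm.const_mul _) C' c hc hσEb hσE hσo
    have h1 : ∀ᵐ v ∂(volume.restrict (Ioi (0 : ℝ))), E v = 0 := by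
      filter_upwards [h0] with v g
      exact (mul_eq_zero.1 g).resolve_left hσ0
    have h2 : ∀ᵐ v : ℝ, E v = 0 := by
      refine ae_real h1 ?_
      filter_upwards [h1] with v g
      rw [hEe]; exact g
    have h3 := htr _ h2 s
    filter_upwards [h3] with u g
    have g' : O (u + s + s) - O (u + s - s) = 0 := g
    rw [show u + s + s = u + ℓ by rw [hs]; ring, show u + s - s = u by ring] at g'
    linarith
  have hfin := hDENSE O Q (fun u => 1 + 2 * G u) hOodd hQ
    (continuous_const.add (G_cont.const_mul 2)) (fun u hu => by rw [hO, oe_pos hu]) L hdense hper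
  filter_upwards [hpos] with u hu
  rw [hfin u hu, sub_self]

end W207.PR
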