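import Pool.Agent.W207.PR.Zeta
import Pool.Agent.W200.HW

/-! # From the pair counts to `N*(T, a)` -/

open Complex Filter Topology Set MeasureTheory
open scoped BigOperators

namespace W207.PR

/-- the multiplicity of `s` as a zero of `ζ` -/
noncomputable def mu (s : ℂ) : ℕ := analyticOrderNatAt riemannZeta s

/-- the nontrivial zeros with ordinate in `(0, T]` -/
def Zs (T : ℝ) : Set ℂ := {s : ℂ | riemannZeta s = 0 ∧ 0 < s.re ∧ s.re < 1 ∧ 0 < s.im ∧ s.im ≤ T}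

/-- the nontrivial zeros `s'` with `0 < y - Im s' ≤ w` -/
def Zw (y w : ℝ) : Set ℂ :=
  {s : ℂ | riemannZeta s = 0 ∧ 0 < s.re ∧ s.re < 1 ∧ 0 < y - s.im ∧ y - s.im ≤ w}

/-- `N*(T, a)` -/
noncomputable def Nst (T a : ℝ) : ℕ :=
  ∑ᶠ s ∈ Zs T, ∑ᶠ s' ∈ Zw s.im (2 * Real.pi * a / Real.log T), mu s * mu s'

/-- `∑ m(ρ)²` -/
noncomputable def Neq (T : ℝ) : ℕ := ∑ᶠ s ∈ Zs T, mu s ^ 2

/-- the number of zeros with multiplicity -/
noncomputable def Nal (T : ℝ) : ℕ := ∑ᶠ s ∈ Zs T, mu s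

/-- the number of simple zeros -/
noncomputable def Nsi (T : ℝ) : ℕ := {s : ℂ | s ∈ Zs T ∧ mu s = 1}.ncard

lemma zeros_abs_finite (R : ℝ) :
    {s : ℂ | riemannZeta s = 0 ∧ 0 < s.re ∧ s.re < 1 ∧ -R ≤ s.im ∧ s.im ≤ R}.Finite := by
  have hcomp : IsCompact (Icc (0 : ℝ) 1 ×ℂ Icc (-R) R) := isCompact_Icc.reProdIm isCompact_Icc
  have h := H370.finite_zeros_compact (F := riemannZeta) (fun s hs => ?_)
    (riemannZeta_ne_zero_of_one_le_re (by simp)) ?_ hcomp
  · refine h.subset ?_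
    rintro s ⟨a0, a1, a2, a3, a4⟩
    exact ⟨⟨⟨a1.le, a2.le⟩, ⟨a3, a4⟩⟩, a0⟩
  · have : DifferentiableOn ℂ riemannZeta ({1}ᶜ : Set ℂ) := fun z hz =>
      (differentiableAt_riemannZeta hz).differentiableWithinAt
    exact this.analyticAt (isOpen_compl_singleton.mem_nhds hs)
  · have h := riemannZeta_residue_one
    have h3 := h.eventually_ne (one_ne_zero : (1 : ℂ) ≠ 0)
    filter_upwards [h3] with s hs h0
    rw [h0, mul_zero] at hs
    exact hs rfl

lemma Zs_finite (T : ℝ) : (Zs T).Finite := by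
  refine (zeros_abs_finite T).subset ?_
  rintro s ⟨a0, a1, a2, a3, a4⟩
  exact ⟨a0, a1, a2, by linarith, a4⟩

lemma Zw_finite (y w : ℝ) : (Zw y w).Finite := by
  refine (zeros_abs_finite (|y| + |w|)).subset ?_
  rintro s ⟨a0, a1, a2, a3, a4⟩
  have := neg_abs_le y
  have := le_abs_self y
  have := le_abs_self w
  have := abs_nonneg w
  exact ⟨a0, a1, a2, by linarith, by linarith⟩

lemma mem_ZT {T : ℝ} {s : ℂ} : s ∈ ZT T ↔ s ∈ Zs T := by
  unfold ZT H343.ZSide.Z0 Zs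
  rw [Set.Finite.mem_toFinset]
  simp only [H370.zset, Set.mem_ofPred_eq]
  tauto

lemma Zs_toFinset (T : ℝ) : (Zs_finite T).toFinset = ZT T := by
  ext s
  rw [Set.Finite.mem_toFinset, mem_ZT]

lemma mz_eq (s : ℂ) : mz s = (mu s : ℝ) := rfl

lemma Neq_eq (T : ℝ) : (Neq T : ℝ) = ∑ s ∈ ZT T, mz s ^ 2 := by
  unfold Neq
  rw [finsum_mem_eq_finite_toFinset_sum _ (Zs_finite T), Zs_toFinset]
  push_cast
  rfl

lemma Nal_eq (T : ℝ) : (Nal T : ℝ) = ∑ s ∈ ZT T, mz s := by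
  unfold Nal
  rw [finsum_mem_eq_finite_toFinset_sum _ (Zs_finite T), Zs_toFinset]
  push_cast
  rfl

open Classical in
/-- the pairs with both ordinates in `(0, T]` and `0 < γ - γ' ≤ w` -/
noncomputable def Npos (T w : ℝ) : ℝ :=
  ∑ s ∈ ZT T, ∑ s' ∈ ZT T, if 0 < s.im - s'.im ∧ s.im - s'.im ≤ w then mz s * mz s' else 0

open Classical in
/-- the pairs counted by `N*` with `γ' ≤ 0` -/
noncomputable def Rem (T w : ℝ) : ℝ :=
  ∑ s ∈ ZT T, ∑ s' ∈ (Zw_finite s.im w).toFinset, if s'.im ≤ 0 then mz s * mz s' else 0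

lemma Npos_nonneg (T w : ℝ) : 0 ≤ Npos T w := by
  unfold Npos
  refine Finset.sum_nonneg fun s _ => Finset.sum_nonneg fun s' _ => ?_
  split_ifs
  · exact mul_nonneg (mz_nonneg _) (mz_nonneg _)
  · exact le_rfl

lemma Rem_nonneg (T w : ℝ) : 0 ≤ Rem T w := by
  unfold Rem
  refine Finset.sum_nonneg fun s _ => Finset.sum_nonneg fun s' _ => ?_
  split_ifs
  · exact mul_nonneg (mz_nonneg _) (mz_nonneg _)
  · exact le_rfl

lemma Nst_split (T a : ℝ) : (Nst T a : ℝ) = Npos T (2 * Real.pi * a / Real.log T) +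
    Rem T (2 * Real.pi * a / Real.log T) := by
  classical
  set w := 2 * Real.pi * a / Real.log T with hw
  unfold Nst Npos Rem
  rw [finsum_mem_eq_finite_toFinset_sum _ (Zs_finite T), Zs_toFinset]
  push_cast
  rw [← Finset.sum_add_distrib]
  refine Finset.sum_congr rfl fun s hs => ?_
  rw [finsum_mem_eq_finite_toFinset_sum _ (Zw_finite s.im w)]
  push_cast
  have hsT : s.im ≤ T := (mem_ZT.1 hs).2.2.2.2
  have h1 : ∑ s' ∈ ZT T, (if 0 < s.im - s'.im ∧ s.im - s'.im ≤ w then mz s * mz s' else 0) =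
      ∑ s' ∈ (Zw_finite s.im w).toFinset, if s'.im ≤ 0 then 0 else mz s * mz s' := by
    rw [← Finset.sum_filter]
    have h2 : (Zw_finite s.im w).toFinset.filter (fun s' => ¬ s'.im ≤ 0) =
        (ZT T).filter (fun s' => 0 < s.im - s'.im ∧ s.im - s'.im ≤ w) := by
      ext s'
      rw [Finset.mem_filter, Finset.mem_filter, Set.Finite.mem_toFinset, mem_ZT]
      constructor
      · rintro ⟨⟨a0, a1, a2, a3, a4⟩, a5⟩
        exact ⟨⟨a0, a1, a2, not_le.1 a5, by linarith⟩, a3, a4⟩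
      · rintro ⟨⟨a0, a1, a2, a3, a4⟩, a5, a6⟩
        exact ⟨⟨a0, a1, a2, a5, a6⟩, not_le.2 a3⟩
    rw [← h2, Finset.sum_filter]
    refine Finset.sum_congr rfl fun s' _ => ?_
    by_cases h : s'.im ≤ 0
    · rw [if_neg (not_not.2 h), if_pos h]
    · rw [if_pos h, if_neg h]
  rw [h1, ← Finset.sum_add_distrib]
  refine Finset.sum_congr rfl fun s' _ => ?_
  rw [mz_eq, mz_eq]
  by_cases h : s'.im ≤ 0
  · rw [if_pos h, if_pos h, zero_add]
  · rw [if_neg h, if_neg h, add_zero]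

lemma Rem_le : ∃ K : ℝ, ∀ T w : ℝ, w ≤ 1 → Rem T w ≤ K := by
  classical
  set Z1 := (zeros_abs_finite 1).toFinset with hZ1
  refine ⟨∑ s ∈ Z1, ∑ s' ∈ Z1, mz s * mz s', fun T w hw => ?_⟩
  unfold Rem
  have hin : ∀ s, 0 ≤ ∑ s' ∈ Z1, mz s * mz s' := fun s =>
    Finset.sum_nonneg fun s' _ => mul_nonneg (mz_nonneg _) (mz_nonneg _)
  have h1 : ∀ s ∈ ZT T, (∑ s' ∈ (Zw_finite s.im w).toFinset,
      if s'.im ≤ 0 then mz s * mz s' else 0) ≤ if s ∈ Z1 then ∑ s' ∈ Z1, mz s * mz s' else 0 := by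
    intro s hs
    obtain ⟨b0, b1, b2, b3, b4⟩ := mem_ZT.1 hs
    by_cases hsZ : s ∈ Z1
    · rw [if_pos hsZ, ← Finset.sum_filter]
      refine Finset.sum_le_sum_of_subset_of_nonneg ?_ fun s' _ _ =>
        mul_nonneg (mz_nonneg _) (mz_nonneg _)
      intro s' hs'
      rw [Finset.mem_filter, Set.Finite.mem_toFinset] at hs'
      obtain ⟨⟨a0, a1, a2, a3, a4⟩, a5⟩ := hs'
      rw [hZ1, Set.Finite.mem_toFinset]
      exact ⟨a0, a1, a2, by linarith, by linarith⟩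
    · rw [if_neg hsZ]
      refine le_of_eq (Finset.sum_eq_zero fun s' hs' => ?_)
      rw [Set.Finite.mem_toFinset] at hs'
      obtain ⟨a0, a1, a2, a3, a4⟩ := hs'
      rw [if_neg]
      intro a5
      apply hsZ
      rw [hZ1, Set.Finite.mem_toFinset]
      exact ⟨b0, b1, b2, by linarith, by linarith⟩
  refine (Finset.sum_le_sum h1).trans ?_
  rw [← Finset.sum_filter]
  refine Finset.sum_le_sum_of_subset_of_nonneg ?_ fun s _ _ => hin s
  intro s hs
  exact (Finset.mem_filter.1 hs).2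

lemma eq_of_im (hRH : RiemannHypothesis) {T : ℝ} {s s' : ℂ} (h : s ∈ ZT T) (h' : s' ∈ ZT T)
    (him : s.im = s'.im) : s = s' := by
  obtain ⟨a0, a1, a2, a3, a4⟩ := mem_ZT.1 h
  obtain ⟨b0, b1, b2, b3, b4⟩ := mem_ZT.1 h'
  apply Complex.ext _ him
  rw [W200.HW.re_half hRH a0 a3, W200.HW.re_half hRH b0 b3]

/-- `N2 = N_= + 2 N_>` -/
lemma N2_split (hRH : RiemannHypothesis) (T : ℝ) {w : ℝ} (hw : 0 ≤ w) :
    H332B.N2 T w = Neq T + 2 * Npos T w := by
  classical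
  have h1 : H332B.N2 T w = ∑ s ∈ ZT T, ∑ s' ∈ ZT T,
      ((if s = s' then mz s * mz s' else 0) +
        (if 0 < s.im - s'.im ∧ s.im - s'.im ≤ w then mz s * mz s' else 0) +
        (if 0 < s'.im - s.im ∧ s'.im - s.im ≤ w then mz s' * mz s else 0)) := by
    unfold H332B.N2
    refine Finset.sum_congr rfl fun s hs => Finset.sum_congr rfl fun s' hs' => ?_
    rcases lt_trichotomy s.im s'.im with h | h | h
    · have e1 : s ≠ s' := fun e => by rw [e] at h; exact lt_irrefl _ h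
      have e2 : ¬ (0 < s.im - s'.im ∧ s.im - s'.im ≤ w) := fun e => by linarith [e.1]
      have e3 : |s.im - s'.im| = s'.im - s.im := by
        rw [abs_sub_comm, abs_of_pos (by linarith)]
      rw [if_neg e1, if_neg e2, e3, zero_add, zero_add]
      by_cases h4 : s'.im - s.im ≤ w
      · rw [if_pos h4, if_pos ⟨by linarith, h4⟩, mul_comm]
      · rw [if_neg h4, if_neg (fun e => h4 e.2)]
    · have e1 : s = s' := eq_of_im hRH hs hs' h
      subst e1
      simp [hw]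
    · have e1 : s ≠ s' := fun e => by rw [e] at h; exact lt_irrefl _ h
      have e2 : ¬ (0 < s'.im - s.im ∧ s'.im - s.im ≤ w) := fun e => by linarith [e.1]
      have e3 : |s.im - s'.im| = s.im - s'.im := abs_of_pos (by linarith)
      rw [if_neg e1, if_neg e2, e3, zero_add, add_zero]
      by_cases h4 : s.im - s'.im ≤ w
      · rw [if_pos h4, if_pos ⟨by linarith, h4⟩]
      · rw [if_neg h4, if_neg (fun e => h4 e.2)]
  rw [h1]
  simp_rw [Finset.sum_add_distrib]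
  have h2 : ∑ s ∈ ZT T, ∑ s' ∈ ZT T, (if s = s' then mz s * mz s' else 0) = (Neq T : ℝ) := by
    rw [Neq_eq]
    refine Finset.sum_congr rfl fun s hs => ?_
    rw [Finset.sum_ite_eq]
    rw [if_pos hs, sq]
  have h3 : ∑ s ∈ ZT T, ∑ s' ∈ ZT T,
      (if 0 < s'.im - s.im ∧ s'.im - s.im ≤ w then mz s' * mz s else 0) = Npos T w := by
    unfold Npos
    rw [Finset.sum_comm]
  rw [h2, h3]
  unfold Npos
  ring

end W207.PR
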