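import Pool.Agent.W207.PR.Bridge

/-! # The final equivalences -/

open Complex Filter Topology Set MeasureTheory
open scoped BigOperators

namespace W207.PR

/-- the prediction `g(a) = (1/2π) ∫_0^a (1 - (sin πu / πu)²) du` -/
noncomputable def gg (a : ℝ) : ℝ := 1 / (2 * Real.pi) *
  ∫ u in (0 : ℝ)..a, (1 - (Real.sin (Real.pi * u) / (Real.pi * u)) ^ 2)

lemma gg_eq (a : ℝ) : gg a = G a / (2 * Real.pi) := by unfold gg G; ring

lemma X_tendsto : Tendsto X atTop atTop := by
  unfold X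
  have hpi := Real.pi_pos
  exact (tendsto_id.atTop_div_const (by positivity)).atTop_mul_atTop₀ Real.tendsto_log_atTop

lemma XT (T : ℝ) : T * Real.log T = 2 * Real.pi * X T := by
  unfold X
  have hpi := Real.pi_pos
  field_simp

/-- the pair count in terms of `N*` -/
lemma L1 (hRH : RiemannHypothesis) (u : ℝ) (hu : 0 < u) :
    Tendsto (fun T => P T u - (Neq T / X T + 2 * (Nst T u / X T))) atTop (𝓝 0) := by
  obtain ⟨K, hK⟩ := Rem_le
  have hpi := Real.pi_pos
  have hw : Tendsto (fun T : ℝ => 2 * Real.pi * u / Real.log T) atTop (𝓝 0) :=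
    tendsto_const_nhds.div_atTop Real.tendsto_log_atTop
  have h1 : ∀ᶠ T : ℝ in atTop, 2 * Real.pi * u / Real.log T ≤ 1 :=
    (hw.eventually (gt_mem_nhds zero_lt_one)).mono fun _ h => h.le
  have h2 : Tendsto (fun T => 2 * K / X T) atTop (𝓝 0) := tendsto_const_nhds.div_atTop X_tendsto
  have h3 : Tendsto (fun T => -(2 * K / X T)) atTop (𝓝 0) := by simpa using h2.neg
  refine tendsto_of_tendsto_of_tendsto_of_le_of_le' h3 tendsto_const_nhds ?_ ?_
  all_goals
    filter_upwards [h1, eventually_ge_atTop (10 : ℝ)] with T hT1 hT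
    have hX := X_pos hT
    have hlog : 0 < Real.log T := Real.log_pos (by linarith)
    have e1 : P T u - (Neq T / X T + 2 * (Nst T u / X T)) =
        -(2 * Rem T (2 * Real.pi * u / Real.log T) / X T) := by
      unfold P
      rw [N2_split hRH T (by positivity), Nst_split]
      field_simp
      ring
    rw [e1]
  · have h4 := hK T _ hT1
    have : 2 * Rem T (2 * Real.pi * u / Real.log T) / X T ≤ 2 * K / X T := by
      apply div_le_div_of_nonneg_right _ hX.le
      linarith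
    linarith
  · have h4 := Rem_nonneg T (2 * Real.pi * u / Real.log T)
    have : 0 ≤ 2 * Rem T (2 * Real.pi * u / Real.log T) / X T := by positivity
    linarith

lemma Nal_lower (ε : ℝ) (hε : 0 < ε) : ∀ᶠ T in atTop, 1 - ε ≤ Nal T / X T := by
  obtain ⟨T0, h⟩ := W200.HW.NZ_lower ε hε
  filter_upwards [eventually_ge_atTop T0, eventually_ge_atTop (10 : ℝ)] with T hT hT10
  have hX := X_pos hT10
  rw [le_div_iff₀ hX]
  exact h T hT

lemma mu_pos {T : ℝ} {s : ℂ} (hs : s ∈ Zs T) : 1 ≤ mu s := by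
  obtain ⟨a0, a1, a2, a3, a4⟩ := hs
  exact SG.zmult_pos a3 a0

lemma Nal_le_Neq (T : ℝ) : (Nal T : ℝ) ≤ Neq T := by
  rw [Nal_eq, Neq_eq]
  refine Finset.sum_le_sum fun s hs => ?_
  have h1 : (1 : ℝ) ≤ mz s := by
    rw [mz_eq]; exact_mod_cast mu_pos (mem_ZT.1 hs)
  nlinarith

open Classical in
lemma Nsi_eq (T : ℝ) : (Nsi T : ℝ) = ∑ s ∈ ZT T, if mu s = 1 then (1 : ℝ) else 0 := by
  have h1 : {s : ℂ | s ∈ Zs T ∧ mu s = 1} = ((ZT T).filter (fun s => mu s = 1) : Finset ℂ) := by
    ext s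
    simp only [Set.mem_ofPred_eq, Finset.coe_filter, mem_ZT]
  unfold Nsi
  rw [h1, Set.ncard_coe_finset, Finset.card_filter]
  push_cast
  rfl

lemma Nsi_le (T : ℝ) : (Nsi T : ℝ) ≤ Nal T := by
  classical
  rw [Nsi_eq, Nal_eq]
  refine Finset.sum_le_sum fun s hs => ?_
  have h1 : (1 : ℝ) ≤ mz s := by
    rw [mz_eq]; exact_mod_cast mu_pos (mem_ZT.1 hs)
  split_ifs <;> linarith

lemma Nsi_ge (T : ℝ) : 2 * (Nal T : ℝ) - Neq T ≤ Nsi T := by
  classical
  rw [Nsi_eq, Nal_eq, Neq_eq, Finset.mul_sum, ← Finset.sum_sub_distrib]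
  refine Finset.sum_le_sum fun s hs => ?_
  have h1 := mu_pos (mem_ZT.1 hs)
  rw [mz_eq]
  split_ifs with h
  · rw [h]; norm_num
  · have h2 : 2 ≤ mu s := by omega
    have h3 : (2 : ℝ) ≤ mu s := by exact_mod_cast h2
    nlinarith

/-! ### The conditions, along a filter `l` -/

/-- the pair correlation asymptotics -/
def PCC (l : Filter ℝ) : Prop := ∀ a : ℝ, 0 < a →
  Tendsto (fun T => (Nst T a : ℝ) / (T * Real.log T)) l (𝓝 (gg a))

/-- lower bound up to an exponentially small loss -/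
def Lower (l : Filter ℝ) : Prop := ∃ C c : ℝ, 0 < c ∧ ∀ a : ℝ, 0 < a → ∀ ε : ℝ, 0 < ε →
  ∀ᶠ T in l, (gg a - C * Real.exp (-(c * a)) - ε) * (T * Real.log T) ≤ Nst T a

/-- upper bound up to an exponentially small loss -/
def Upper (l : Filter ℝ) : Prop := ∃ C c : ℝ, 0 < c ∧ ∀ a : ℝ, 0 < a → ∀ ε : ℝ, 0 < ε →
  ∀ᶠ T in l, (Nst T a : ℝ) + Neq T / 2 ≤
    (gg a + 1 / (4 * Real.pi) + C * Real.exp (-(c * a)) + ε) * (T * Real.log T)

/-- lower bound for the windows beyond `A` -/
def WLower (l : Filter ℝ) : Prop := ∃ A : ℝ, 0 < A ∧ ∀ a b : ℝ, A < a → a < b → ∀ ε : ℝ, 0 < ε →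
  ∀ᶠ T in l, (gg b - gg a - ε) * (T * Real.log T) ≤ (Nst T b : ℝ) - Nst T a

/-- upper bound for the windows beyond `A` -/
def WUpper (l : Filter ℝ) : Prop := ∃ A : ℝ, 0 < A ∧ ∀ a b : ℝ, A < a → a < b → ∀ ε : ℝ, 0 < ε →
  ∀ᶠ T in l, (Nst T b : ℝ) - Nst T a ≤ (gg b - gg a + ε) * (T * Real.log T)

/-- the asymptotics in terms of the pair counts -/
def PP (l : Filter ℝ) : Prop := ∀ u : ℝ, 0 < u → Tendsto (fun T => P T u) l (𝓝 (1 + 2 * G u))

lemma Neq_lower (ε : ℝ) (hε : 0 < ε) : ∀ᶠ T in atTop, 1 - ε ≤ Neq T / X T := by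
  filter_upwards [Nal_lower ε hε, eventually_ge_atTop (10 : ℝ)] with T h1 h2
  exact h1.trans (div_le_div_of_nonneg_right (Nal_le_Neq T) (X_pos h2).le)

/-- few multiple zeros -/
lemma PP_Neq (hRH : RiemannHypothesis) {l : Filter ℝ} (hl : l ≤ atTop) (h : PP l) :
    Tendsto (fun T => (Neq T : ℝ) / X T) l (𝓝 1) := by
  rw [Metric.tendsto_nhds]
  intro ε hε
  set u : ℝ := ε / 8 with hu
  have hu0 : 0 < u := by positivity
  have h1 := h u hu0
  have h2 : ∀ᶠ T in l, P T u < 1 + 2 * G u + ε / 4 := h1.eventually (gt_mem_nhds (by linarith))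
  have h3 : ∀ᶠ T in l, -(ε / 4) < P T u - (Neq T / X T + 2 * (Nst T u / X T)) :=
    ((L1 hRH u hu0).mono_left hl).eventually (lt_mem_nhds (by linarith))
  have h4 := hl (Neq_lower (ε / 2) (by positivity))
  have h5 : G u ≤ u := G_le hu0.le
  filter_upwards [h2, h3, h4, hl (eventually_ge_atTop (10 : ℝ))] with T g2 g3 g4 g5
  have hX := X_pos g5
  have g6 : (0 : ℝ) ≤ Nst T u / X T := by positivity
  rw [Real.dist_eq, abs_lt]
  constructor <;> linarith

lemma PP_Nst (hRH : RiemannHypothesis) {l : Filter ℝ} (hl : l ≤ atTop) (h : PP l) (u : ℝ)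
    (hu : 0 < u) : Tendsto (fun T => (Nst T u : ℝ) / X T) l (𝓝 (G u)) := by
  have h1 := h u hu
  have h2 := (L1 hRH u hu).mono_left hl
  have h3 := PP_Neq hRH hl h
  have h4 := ((h1.sub h2).sub h3).div_const 2
  have e : (1 + 2 * G u - 0 - 1) / 2 = G u := by ring
  rw [e] at h4
  refine h4.congr fun T => ?_
  ring

lemma PP_PCC (hRH : RiemannHypothesis) {l : Filter ℝ} (hl : l ≤ atTop) (h : PP l) : PCC l := by
  intro a ha
  have h1 := (PP_Nst hRH hl h a ha).div_const (2 * Real.pi)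
  rw [gg_eq]
  refine h1.congr fun T => ?_
  rw [XT, div_div, mul_comm (X T)]

lemma seq_form {l : Filter ℝ} [l.IsCountablyGenerated]
    (h : ∀ t : ℕ → ℝ, Tendsto t atTop l → ∀ u : ℝ, 0 < u →
      Tendsto (fun j => P (t j) u) atTop (𝓝 (1 + 2 * G u))) : PP l := by
  intro u hu
  exact tendsto_of_seq_tendsto fun t ht => h t ht u hu

/-- from the lower bound -/
lemma of_Lower (hRH : RiemannHypothesis) (hcore : S_CORE) {l : Filter ℝ} [l.IsCountablyGenerated]
    (hl : l ≤ atTop) (h : Lower l) : PP l := by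
  obtain ⟨C, c, hc, h⟩ := h
  have hpi := Real.pi_pos
  refine seq_form fun t ht => ?_
  apply hcore hRH 1 (Or.inl rfl) t (ht.mono_right hl) (4 * Real.pi * C) c hc
  intro u hu ε hε
  have h1 : ∀ᶠ T in l, -(4 * Real.pi * C * Real.exp (-(c * u)) + ε) ≤ 1 * D T u := by
    have g1 := h u hu (ε / (16 * Real.pi)) (by positivity)
    have g2 : ∀ᶠ T in l, -(ε / 4) < P T u - (Neq T / X T + 2 * (Nst T u / X T)) :=
      ((L1 hRH u hu).mono_left hl).eventually (lt_mem_nhds (by linarith))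
    filter_upwards [g1, g2, hl (Neq_lower (ε / 4) (by positivity)),
      hl (eventually_ge_atTop (10 : ℝ))] with T g1 g2 g3 g4
    have hX := X_pos g4
    rw [XT, gg_eq] at g1
    have g5 : (G u - 2 * Real.pi * C * Real.exp (-(c * u)) - ε / 8) ≤ Nst T u / X T := by
      rw [le_div_iff₀ hX]
      refine le_trans (le_of_eq ?_) g1
      field_simp
      ring
    unfold D
    linarith
  exact ht.eventually h1

lemma of_Upper (hRH : RiemannHypothesis) (hcore : S_CORE) {l : Filter ℝ} [l.IsCountablyGenerated]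
    (hl : l ≤ atTop) (h : Upper l) : PP l := by
  obtain ⟨C, c, hc, h⟩ := h
  have hpi := Real.pi_pos
  refine seq_form fun t ht => ?_
  apply hcore hRH (-1) (Or.inr rfl) t (ht.mono_right hl) (4 * Real.pi * C) c hc
  intro u hu ε hε
  have h1 : ∀ᶠ T in l, -(4 * Real.pi * C * Real.exp (-(c * u)) + ε) ≤ -1 * D T u := by
    have g1 := h u hu (ε / (16 * Real.pi)) (by positivity)
    have g2 : ∀ᶠ T in l, P T u - (Neq T / X T + 2 * (Nst T u / X T)) < ε / 4 :=
      ((L1 hRH u hu).mono_left hl).eventually (gt_mem_nhds (by linarith))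
    filter_upwards [g1, g2, hl (eventually_ge_atTop (10 : ℝ))] with T g1 g2 g4
    have hX := X_pos g4
    rw [XT, gg_eq] at g1
    have g5 : (Nst T u / X T : ℝ) + Neq T / X T / 2 ≤
        (G u + 1 / 2 + 2 * Real.pi * C * Real.exp (-(c * u)) + ε / 8) := by
      have e1 : (Nst T u / X T : ℝ) + Neq T / X T / 2 = (Nst T u + Neq T / 2) / X T := by
        field_simp
      rw [e1, div_le_iff₀ hX]
      refine g1.trans (le_of_eq ?_)
      field_simp
      ring
    unfold D
    linarith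
  exact ht.eventually h1

lemma of_WLower (hRH : RiemannHypothesis) (hcore : S_COREW) {l : Filter ℝ}
    [l.IsCountablyGenerated] (hl : l ≤ atTop) (h : WLower l) : PP l := by
  obtain ⟨A, hA, h⟩ := h
  have hpi := Real.pi_pos
  refine seq_form fun t ht => ?_
  apply hcore hRH 1 (Or.inl rfl) t (ht.mono_right hl) A hA
  intro a b ha hab ε hε
  have h1 : ∀ᶠ T in l, -ε ≤ 1 * (D T b - D T a) := by
    have g1 := h a b ha hab (ε / (16 * Real.pi)) (by positivity)
    have ga : ∀ᶠ T in l, P T a - (Neq T / X T + 2 * (Nst T a / X T)) < ε / 4 :=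
      ((L1 hRH a (by linarith)).mono_left hl).eventually (gt_mem_nhds (by linarith))
    have gb : ∀ᶠ T in l, -(ε / 4) < P T b - (Neq T / X T + 2 * (Nst T b / X T)) :=
      ((L1 hRH b (by linarith)).mono_left hl).eventually (lt_mem_nhds (by linarith))
    filter_upwards [g1, ga, gb, hl (eventually_ge_atTop (10 : ℝ))] with T g1 ga gb g4
    have hX := X_pos g4
    rw [XT, gg_eq, gg_eq] at g1
    have g5 : (G b - G a - ε / 8) ≤ Nst T b / X T - Nst T a / X T := by
      rw [← sub_div, le_div_iff₀ hX]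
      refine le_trans (le_of_eq ?_) g1
      field_simp
      ring
    unfold D
    linarith
  exact ht.eventually h1

lemma of_WUpper (hRH : RiemannHypothesis) (hcore : S_COREW) {l : Filter ℝ}
    [l.IsCountablyGenerated] (hl : l ≤ atTop) (h : WUpper l) : PP l := by
  obtain ⟨A, hA, h⟩ := h
  have hpi := Real.pi_pos
  refine seq_form fun t ht => ?_
  apply hcore hRH (-1) (Or.inr rfl) t (ht.mono_right hl) A hA
  intro a b ha hab ε hε
  have h1 : ∀ᶠ T in l, -ε ≤ -1 * (D T b - D T a) := by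
    have g1 := h a b ha hab (ε / (16 * Real.pi)) (by positivity)
    have ga : ∀ᶠ T in l, -(ε / 4) < P T a - (Neq T / X T + 2 * (Nst T a / X T)) :=
      ((L1 hRH a (by linarith)).mono_left hl).eventually (lt_mem_nhds (by linarith))
    have gb : ∀ᶠ T in l, P T b - (Neq T / X T + 2 * (Nst T b / X T)) < ε / 4 :=
      ((L1 hRH b (by linarith)).mono_left hl).eventually (gt_mem_nhds (by linarith))
    filter_upwards [g1, ga, gb, hl (eventually_ge_atTop (10 : ℝ))] with T g1 ga gb g4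
    have hX := X_pos g4
    rw [XT, gg_eq, gg_eq] at g1
    have g5 : (Nst T b / X T : ℝ) - Nst T a / X T ≤ G b - G a + ε / 8 := by
      rw [← sub_div, div_le_iff₀ hX]
      refine g1.trans (le_of_eq ?_)
      field_simp
      ring
    unfold D
    linarith
  exact ht.eventually h1

lemma PCC_Lower {l : Filter ℝ} (hl : l ≤ atTop) (h : PCC l) : Lower l := by
  refine ⟨0, 1, one_pos, fun a ha ε hε => ?_⟩
  have h1 : ∀ᶠ T in l, gg a - ε < Nst T a / (T * Real.log T) :=
    (h a ha).eventually (lt_mem_nhds (by linarith))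
  filter_upwards [h1, hl (eventually_ge_atTop (10 : ℝ))] with T g1 g2
  have hX := X_pos g2
  have hpi := Real.pi_pos
  have h3 : 0 < T * Real.log T := by rw [XT]; positivity
  rw [lt_div_iff₀ h3] at g1
  rw [zero_mul, sub_zero]
  exact g1.le

lemma PCC_WLower {l : Filter ℝ} (hl : l ≤ atTop) (h : PCC l) : WLower l ∧ WUpper l := by
  refine ⟨⟨1, one_pos, fun a b ha hab ε hε => ?_⟩, ⟨1, one_pos, fun a b ha hab ε hε => ?_⟩⟩
  all_goals
    have h1 := (h b (by linarith)).sub (h a (by linarith))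
    have h2 : ∀ᶠ T in l, gg b - gg a - ε < Nst T b / (T * Real.log T) -
        Nst T a / (T * Real.log T) := h1.eventually (lt_mem_nhds (by linarith))
    have h3 : ∀ᶠ T in l, (Nst T b / (T * Real.log T) : ℝ) -
        Nst T a / (T * Real.log T) < gg b - gg a + ε := h1.eventually (gt_mem_nhds (by linarith))
    filter_upwards [h2, h3, hl (eventually_ge_atTop (10 : ℝ))] with T g1 g1' g2
    have hX := X_pos g2
    have hpi := Real.pi_pos
    have h4 : 0 < T * Real.log T := by rw [XT]; positivity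
    rw [← sub_div] at g1 g1'
    rw [lt_div_iff₀ h4] at g1
    rw [div_lt_iff₀ h4] at g1'
  · exact g1.le
  · exact g1'.le

lemma PP_Upper (hRH : RiemannHypothesis) {l : Filter ℝ} (hl : l ≤ atTop) (h : PP l) : Upper l := by
  refine ⟨0, 1, one_pos, fun a ha ε hε => ?_⟩
  have hpi := Real.pi_pos
  have h1 := PP_Nst hRH hl h a ha
  have h2 := PP_Neq hRH hl h
  have h3 := h1.add (h2.div_const 2)
  have h4 : ∀ᶠ T in l, (Nst T a / X T : ℝ) + Neq T / X T / 2 < G a + 1 / 2 + 2 * Real.pi * ε :=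
    h3.eventually (gt_mem_nhds (by
      have : 0 < 2 * Real.pi * ε := by positivity
      linarith))
  filter_upwards [h4, hl (eventually_ge_atTop (10 : ℝ))] with T g1 g2
  have hX := X_pos g2
  have e1 : (Nst T a / X T : ℝ) + Neq T / X T / 2 = (Nst T a + Neq T / 2) / X T := by
    field_simp
  rw [e1, div_lt_iff₀ hX] at g1
  refine g1.le.trans (le_of_eq ?_)
  rw [XT, gg_eq]
  field_simp
  ring

lemma PP_simple (hRH : RiemannHypothesis) {l : Filter ℝ} (hl : l ≤ atTop) (h : PP l) :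
    Tendsto (fun T => (Nsi T : ℝ) / Nal T) l (𝓝 1) := by
  have h1 := PP_Neq hRH hl h
  have h2 : Tendsto (fun T => (Nal T : ℝ) / X T) l (𝓝 1) := by
    rw [Metric.tendsto_nhds]
    intro ε hε
    have h3 : ∀ᶠ T in l, (Neq T / X T : ℝ) < 1 + ε := h1.eventually (gt_mem_nhds (by linarith))
    filter_upwards [h3, hl (Nal_lower (ε / 2) (by positivity)),
      hl (eventually_ge_atTop (10 : ℝ))] with T g1 g2 g3
    have hX := X_pos g3
    have g4 : (Nal T / X T : ℝ) ≤ Neq T / X T := div_le_div_of_nonneg_right (Nal_le_Neq T) hX.le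
    rw [Real.dist_eq, abs_lt]
    constructor <;> linarith
  have h3 : Tendsto (fun T => (Nsi T : ℝ) / X T) l (𝓝 1) := by
    have h4 := (h2.const_mul 2).sub h1
    have e : (2 : ℝ) * 1 - 1 = 1 := by norm_num
    rw [e] at h4
    refine tendsto_of_tendsto_of_tendsto_of_le_of_le' h4 h2 ?_ ?_
    · filter_upwards [hl (eventually_ge_atTop (10 : ℝ))] with T g
      have hX := X_pos g
      have h5 : 2 * (Nal T / X T : ℝ) - Neq T / X T = (2 * Nal T - Neq T) / X T := by ring
      rw [h5]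
      exact div_le_div_of_nonneg_right (Nsi_ge T) hX.le
    · filter_upwards [hl (eventually_ge_atTop (10 : ℝ))] with T g
      exact div_le_div_of_nonneg_right (Nsi_le T) (X_pos g).le
  have h4 := h3.div h2 one_ne_zero
  rw [div_one] at h4
  refine h4.congr' ?_
  filter_upwards [hl (eventually_ge_atTop (10 : ℝ))] with T g
  have hX := X_pos g
  show (Nsi T : ℝ) / X T / (Nal T / X T) = _
  rw [div_div_div_cancel_right₀ hX.ne']

/-- **The final theorem** -/
theorem final (hcore : S_CORE) (hcorew : S_COREW) (hRH : RiemannHypothesis) (l : Filter ℝ)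
    [l.IsCountablyGenerated] (hl : l ≤ atTop) :
    [PCC l, Lower l, Upper l, WLower l, WUpper l].TFAE ∧
    (PCC l → Tendsto (fun T => (Nsi T : ℝ) / Nal T) l (𝓝 1)) := by
  have hP : PCC l → PP l := fun h => of_Lower hRH hcore hl (PCC_Lower hl h)
  constructor
  · tfae_have 1 → 2 := PCC_Lower hl
    tfae_have 2 → 1 := fun h => PP_PCC hRH hl (of_Lower hRH hcore hl h)
    tfae_have 1 → 3 := fun h => PP_Upper hRH hl (hP h)
    tfae_have 3 → 1 := fun h => PP_PCC hRH hl (of_Upper hRH hcore hl h)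
    tfae_have 1 → 4 := fun h => (PCC_WLower hl h).1
    tfae_have 4 → 1 := fun h => PP_PCC hRH hl (of_WLower hRH hcorew hl h)
    tfae_have 1 → 5 := fun h => (PCC_WLower hl h).2
    tfae_have 5 → 1 := fun h => PP_PCC hRH hl (of_WUpper hRH hcorew hl h)
    tfae_finish
  · exact fun h => PP_simple hRH hl (hP h)

end W207.PR
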