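import Pool.Agent.W207.PR.Fin
import Pool.Agent.W207.PR.Abs2

/-! # Windows of fixed lengths -/

open Complex Filter Topology Set MeasureTheory
open scoped BigOperators

namespace W207.PR

/-- the nontrivial zeros with ordinate in `[0, T]` -/
def Zc (T : ℝ) : Set ℂ := {s : ℂ | riemannZeta s = 0 ∧ 0 < s.re ∧ s.re < 1 ∧ 0 ≤ s.im ∧ s.im ≤ T}

/-- `N(T; α, β)` -/
noncomputable def NW (T α β : ℝ) : ℕ :=
  ∑ᶠ s ∈ Zc T, ∑ᶠ s' ∈ {s' : ℂ | s' ∈ Zc T ∧ α ≤ (s.im - s'.im) * Real.log T / (2 * Real.pi) ∧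
    (s.im - s'.im) * Real.log T / (2 * Real.pi) ≤ β}, mu s * mu s'

lemma Zc_finite (T : ℝ) : (Zc T).Finite := by
  refine (zeros_abs_finite T).subset ?_
  rintro s ⟨a0, a1, a2, a3, a4⟩
  exact ⟨a0, a1, a2, by linarith, a4⟩

open Classical in
/-- pairs with `w1 ≤ γ - γ' ≤ w2` -/
noncomputable def CW (T w1 w2 : ℝ) : ℝ :=
  ∑ s ∈ ZT T, ∑ s' ∈ ZT T, if w1 ≤ s.im - s'.im ∧ s.im - s'.im ≤ w2 then mz s * mz s' else 0

lemma CW_ge (T : ℝ) {w1 w2 : ℝ} (h1 : 0 < w1) (h12 : w1 ≤ w2) :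
    Npos T w2 - Npos T w1 ≤ CW T w1 w2 := by
  classical
  unfold Npos CW
  rw [← Finset.sum_sub_distrib]
  refine Finset.sum_le_sum fun s _ => ?_
  rw [← Finset.sum_sub_distrib]
  refine Finset.sum_le_sum fun s' _ => ?_
  have h0 : 0 ≤ mz s * mz s' := mul_nonneg (mz_nonneg s) (mz_nonneg s')
  have hr : 0 ≤ (if w1 ≤ s.im - s'.im ∧ s.im - s'.im ≤ w2 then mz s * mz s' else 0) := by
    split_ifs
    · exact h0
    · exact le_rfl
  by_cases a1 : 0 < s.im - s'.im ∧ s.im - s'.im ≤ w2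
  · by_cases a2 : 0 < s.im - s'.im ∧ s.im - s'.im ≤ w1
    · rw [if_pos a1, if_pos a2, sub_self]
      exact hr
    · have a3 : w1 ≤ s.im - s'.im ∧ s.im - s'.im ≤ w2 :=
        ⟨by by_contra hc; push Not at hc; exact a2 ⟨a1.1, hc.le⟩, a1.2⟩
      rw [if_pos a1, if_neg a2, if_pos a3, sub_zero]
  · rw [if_neg a1]
    have a2 : ¬ (0 < s.im - s'.im ∧ s.im - s'.im ≤ w1) := fun h => a1 ⟨h.1, h.2.trans h12⟩
    rw [if_neg a2, sub_zero]
    exact hr

lemma CW_le (T : ℝ) {w0 w1 w2 : ℝ} (h0 : 0 ≤ w0) (h01 : w0 < w1) :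
    CW T w1 w2 ≤ Npos T w2 - Npos T (min w0 w2) := by
  classical
  unfold Npos CW
  rw [← Finset.sum_sub_distrib]
  refine Finset.sum_le_sum fun s _ => ?_
  rw [← Finset.sum_sub_distrib]
  refine Finset.sum_le_sum fun s' _ => ?_
  have hm : 0 ≤ mz s * mz s' := mul_nonneg (mz_nonneg s) (mz_nonneg s')
  by_cases a1 : w1 ≤ s.im - s'.im ∧ s.im - s'.im ≤ w2
  · have a2 : 0 < s.im - s'.im ∧ s.im - s'.im ≤ w2 := ⟨by linarith [a1.1], a1.2⟩
    have a3 : ¬ (0 < s.im - s'.im ∧ s.im - s'.im ≤ min w0 w2) := fun h => by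
      have := h.2.trans (min_le_left _ _)
      linarith [a1.1]
    rw [if_pos a1, if_pos a2, if_neg a3, sub_zero]
  · rw [if_neg a1]
    by_cases a2 : 0 < s.im - s'.im ∧ s.im - s'.im ≤ min w0 w2
    · have a3 : 0 < s.im - s'.im ∧ s.im - s'.im ≤ w2 := ⟨a2.1, a2.2.trans (min_le_right _ _)⟩
      rw [if_pos a2, if_pos a3, sub_self]
    · rw [if_neg a2, sub_zero]
      split_ifs
      · exact hm
      · exact le_rfl

/-- the remainder due to zeros with ordinate `0` is bounded -/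
lemma NW_CW : ∃ K : ℝ, 0 ≤ K ∧ ∀ T α β : ℝ, 10 ≤ T → 0 < α → 2 * Real.pi * β / Real.log T ≤ 1 →
    CW T (2 * Real.pi * α / Real.log T) (2 * Real.pi * β / Real.log T) ≤ NW T α β ∧
    (NW T α β : ℝ) ≤ CW T (2 * Real.pi * α / Real.log T) (2 * Real.pi * β / Real.log T) + K := by
  classical
  have hpi := Real.pi_pos
  set Z1 := (zeros_abs_finite 1).toFinset with hZ1
  have hK : 0 ≤ ∑ s ∈ Z1, ∑ s' ∈ Z1, mz s * mz s' :=
    Finset.sum_nonneg fun s _ => Finset.sum_nonneg fun s' _ =>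
      mul_nonneg (mz_nonneg _) (mz_nonneg _)
  refine ⟨∑ s ∈ Z1, ∑ s' ∈ Z1, mz s * mz s', hK, fun T α β hT hα hβ => ?_⟩
  have hlog : 0 < Real.log T := Real.log_pos (by linarith)
  set w1 := 2 * Real.pi * α / Real.log T with hw1
  set w2 := 2 * Real.pi * β / Real.log T with hw2
  have hw1pos : 0 < w1 := by positivity
  set Cf := (Zc_finite T).toFinset with hCf
  have hmemC : ∀ s, s ∈ Cf ↔ s ∈ Zc T := fun s => Set.Finite.mem_toFinset _
  -- the count as a double sum
  have hNW : (NW T α β : ℝ) = ∑ s ∈ Cf, ∑ s' ∈ Cf,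
      if w1 ≤ s.im - s'.im ∧ s.im - s'.im ≤ w2 then mz s * mz s' else 0 := by
    unfold NW
    rw [finsum_mem_eq_finite_toFinset_sum _ (Zc_finite T)]
    push_cast
    refine Finset.sum_congr rfl fun s _ => ?_
    have hfin : {s' : ℂ | s' ∈ Zc T ∧ α ≤ (s.im - s'.im) * Real.log T / (2 * Real.pi) ∧
        (s.im - s'.im) * Real.log T / (2 * Real.pi) ≤ β}.Finite :=
      (Zc_finite T).subset fun _ h => h.1
    rw [finsum_mem_eq_finite_toFinset_sum _ hfin]
    push_cast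
    rw [← Finset.sum_filter]
    apply Finset.sum_congr
    · ext s'
      rw [Set.Finite.mem_toFinset, Finset.mem_filter, hmemC]
      simp only [Set.mem_ofPred_eq]
      have e1 : α ≤ (s.im - s'.im) * Real.log T / (2 * Real.pi) ↔ w1 ≤ s.im - s'.im := by
        rw [hw1, le_div_iff₀ (by positivity), div_le_iff₀ hlog, mul_comm α]
      have e2 : (s.im - s'.im) * Real.log T / (2 * Real.pi) ≤ β ↔ s.im - s'.im ≤ w2 := by
        rw [hw2, div_le_iff₀ (by positivity), le_div_iff₀ hlog, mul_comm β]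
      rw [e1, e2]
    · intro s' _
      rfl
  have hsub : ZT T ⊆ Cf := by
    intro s hs
    obtain ⟨a0, a1, a2, a3, a4⟩ := mem_ZT.1 hs
    exact (hmemC s).2 ⟨a0, a1, a2, a3.le, a4⟩
  have hnn : ∀ s s' : ℂ, 0 ≤ if w1 ≤ s.im - s'.im ∧ s.im - s'.im ≤ w2 then mz s * mz s' else 0 := by
    intro s s'
    split_ifs
    · exact mul_nonneg (mz_nonneg _) (mz_nonneg _)
    · exact le_rfl
  rw [hNW]
  constructor
  · unfold CW
    calc _ ≤ ∑ s ∈ ZT T, ∑ s' ∈ Cf,
          (if w1 ≤ s.im - s'.im ∧ s.im - s'.im ≤ w2 then mz s * mz s' else 0) :=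
          Finset.sum_le_sum fun s _ => Finset.sum_le_sum_of_subset_of_nonneg hsub
            fun s' _ _ => hnn s s'
      _ ≤ _ := Finset.sum_le_sum_of_subset_of_nonneg hsub fun s _ _ =>
            Finset.sum_nonneg fun s' _ => hnn s s'
  · -- a pair counted by `N` but not by `CW` has `s'.im = 0` and both ordinates in `[-1, 1]`
    have hterm : ∀ s ∈ Cf, ∀ s' ∈ Cf,
        (if w1 ≤ s.im - s'.im ∧ s.im - s'.im ≤ w2 then mz s * mz s' else 0) ≤
        (if s ∈ ZT T ∧ s' ∈ ZT T then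
          (if w1 ≤ s.im - s'.im ∧ s.im - s'.im ≤ w2 then mz s * mz s' else 0) else 0) +
        (if s ∈ Z1 ∧ s' ∈ Z1 then mz s * mz s' else 0) := by
      intro s hs s' hs'
      obtain ⟨a0, a1, a2, a3, a4⟩ := (hmemC s).1 hs
      obtain ⟨b0, b1, b2, b3, b4⟩ := (hmemC s').1 hs'
      have hm : 0 ≤ mz s * mz s' := mul_nonneg (mz_nonneg _) (mz_nonneg _)
      have hn1 : 0 ≤ (if s ∈ Z1 ∧ s' ∈ Z1 then mz s * mz s' else 0) := by
        split_ifs
        · exact hm
        · exact le_rfl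
      by_cases hw : w1 ≤ s.im - s'.im ∧ s.im - s'.im ≤ w2
      · rw [if_pos hw]
        by_cases h0 : 0 < s'.im
        · have c1 : s ∈ ZT T := mem_ZT.2 ⟨a0, a1, a2, by linarith [hw.1], a4⟩
          have c2 : s' ∈ ZT T := mem_ZT.2 ⟨b0, b1, b2, h0, b4⟩
          rw [if_pos ⟨c1, c2⟩]
          linarith
        · have c1 : s ∈ Z1 := by
            rw [hZ1, Set.Finite.mem_toFinset]
            exact ⟨a0, a1, a2, by linarith, by linarith [hw.2]⟩
          have c2 : s' ∈ Z1 := by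
            rw [hZ1, Set.Finite.mem_toFinset]
            exact ⟨b0, b1, b2, by linarith, by linarith⟩
          have e0 : (if s ∈ Z1 ∧ s' ∈ Z1 then mz s * mz s' else 0) = mz s * mz s' :=
            if_pos ⟨c1, c2⟩
          rw [e0]
          have : 0 ≤ (if s ∈ ZT T ∧ s' ∈ ZT T then mz s * mz s' else 0) := by
            split_ifs
            · exact hm
            · exact le_rfl
          linarith
      · rw [if_neg hw]
        have : (0 : ℝ) ≤ (if s ∈ ZT T ∧ s' ∈ ZT T then (0 : ℝ) else 0) := by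
          split_ifs <;> exact le_rfl
        linarith
    refine (Finset.sum_le_sum fun s hs => Finset.sum_le_sum fun s' hs' => hterm s hs s' hs').trans ?_
    simp_rw [Finset.sum_add_distrib]
    apply add_le_add
    · unfold CW
      rw [← Finset.sum_product', ← Finset.sum_product']
      rw [← Finset.sum_filter]
      refine Finset.sum_le_sum_of_subset_of_nonneg ?_ fun p _ _ => hnn _ _
      intro p hp
      rw [Finset.mem_filter] at hp
      rw [Finset.mem_product]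
      exact hp.2
    · rw [← Finset.sum_product', ← Finset.sum_product', ← Finset.sum_filter]
      refine Finset.sum_le_sum_of_subset_of_nonneg ?_ fun p _ _ =>
        mul_nonneg (mz_nonneg _) (mz_nonneg _)
      intro p hp
      rw [Finset.mem_filter] at hp
      rw [Finset.mem_product]
      exact hp.2

lemma P_diff (hRH : RiemannHypothesis) {T : ℝ} (hT : 10 ≤ T) {u v : ℝ} (hu : 0 ≤ u) (hv : 0 ≤ v) :
    P T v - P T u = 2 * (Npos T (2 * Real.pi * v / Real.log T) -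
      Npos T (2 * Real.pi * u / Real.log T)) / X T := by
  have hpi := Real.pi_pos
  have hlog : 0 < Real.log T := Real.log_pos (by linarith)
  unfold P
  rw [N2_split hRH T (by positivity), N2_split hRH T (by positivity), ← sub_div]
  congr 1
  ring

/-- windows from below and above -/
lemma win_bounds (hRH : RiemannHypothesis) : ∃ K : ℝ, 0 ≤ K ∧ ∀ T α β δ : ℝ, 10 ≤ T → 0 < α →
    α ≤ β → 0 < δ → 2 * Real.pi * β / Real.log T ≤ 1 →
    P T β - P T α ≤ 2 * (NW T α β / X T) ∧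
    2 * (NW T α β / X T) ≤ P T β - P T (α - δ) + 2 * K / X T := by
  obtain ⟨K, hK, h⟩ := NW_CW
  have hpi := Real.pi_pos
  refine ⟨K, hK, fun T α β δ hT hα hαβ hδ hβ => ?_⟩
  have hlog : 0 < Real.log T := Real.log_pos (by linarith)
  have hX := X_pos hT
  obtain ⟨h1, h2⟩ := h T α β hT hα hβ
  constructor
  · rw [P_diff hRH hT hα.le (hα.le.trans hαβ)]
    have h3 := CW_ge T (w1 := 2 * Real.pi * α / Real.log T) (w2 := 2 * Real.pi * β / Real.log T)
      (by positivity) (by gcongr)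
    rw [← mul_div_assoc]
    apply div_le_div_of_nonneg_right _ hX.le
    linarith
  · set δ' : ℝ := min δ (α / 2) with hδ'
    have hδ'0 : 0 < δ' := lt_min hδ (by positivity)
    have hδ'1 : δ' ≤ δ := min_le_left _ _
    have hδ'2 : δ' ≤ α / 2 := min_le_right _ _
    have hPm : P T (α - δ) ≤ P T (α - δ') := P_mono hT (by linarith)
    have h3 := CW_le T (w0 := 2 * Real.pi * (α - δ') / Real.log T)
      (w1 := 2 * Real.pi * α / Real.log T) (w2 := 2 * Real.pi * β / Real.log T)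
      (by
        have : 0 ≤ α - δ' := by linarith
        positivity)
      (by
        apply div_lt_div_of_pos_right _ hlog
        have : 2 * Real.pi * (α - δ') < 2 * Real.pi * α := by
          apply mul_lt_mul_of_pos_left (by linarith) (by positivity)
        exact this)
    have h4 : min (2 * Real.pi * (α - δ') / Real.log T) (2 * Real.pi * β / Real.log T) =
        2 * Real.pi * (α - δ') / Real.log T := by
      apply min_eq_left
      gcongr
      linarith
    rw [h4] at h3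
    have h5 := P_diff hRH hT (u := α - δ') (v := β) (by linarith) (hα.le.trans hαβ)
    have h6 : 2 * (NW T α β / X T : ℝ) ≤ P T β - P T (α - δ') + 2 * K / X T := by
      rw [h5, ← mul_div_assoc, ← add_div]
      apply div_le_div_of_nonneg_right _ hX.le
      linarith
    linarith

/-- the prediction for a window -/
noncomputable def gw (α β : ℝ) : ℝ :=
  ∫ u in α..β, (1 - (Real.sin (Real.pi * u) / (Real.pi * u)) ^ 2)

lemma gw_eq (α β : ℝ) : gw α β = G β - G α := (G_sub α β).symm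

/-- the conjecture for windows, along `l` -/
def WC (l : Filter ℝ) : Prop := ∀ α β : ℝ, 0 < α → α < β →
  Tendsto (fun T => (NW T α β : ℝ) / (T * Real.log T / (2 * Real.pi))) l (𝓝 (gw α β))

/-- lower bounds for the windows of length `ℓ` -/
def WL (l : Filter ℝ) (ℓ : ℝ) : Prop := ∃ C c : ℝ, 0 < c ∧ ∀ a : ℝ, 0 < a → ∀ ε : ℝ, 0 < ε →
  ∀ᶠ T in l, (gw a (a + ℓ) - C * Real.exp (-(c * a)) - ε) * (T * Real.log T / (2 * Real.pi)) ≤
    NW T a (a + ℓ)

/-- upper bounds for the windows of length `ℓ` -/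
def WU (l : Filter ℝ) (ℓ : ℝ) : Prop := ∃ C c : ℝ, 0 < c ∧ ∀ a : ℝ, 0 < a → ∀ ε : ℝ, 0 < ε →
  ∀ᶠ T in l, (NW T a (a + ℓ) : ℝ) ≤
    (gw a (a + ℓ) + C * Real.exp (-(c * a)) + ε) * (T * Real.log T / (2 * Real.pi))

lemma XT' (T : ℝ) : T * Real.log T / (2 * Real.pi) = X T := by
  unfold X; ring

lemma ev_small (β : ℝ) : ∀ᶠ T : ℝ in atTop, 2 * Real.pi * β / Real.log T ≤ 1 := by
  have hw : Tendsto (fun T : ℝ => 2 * Real.pi * β / Real.log T) atTop (𝓝 0) :=
    tendsto_const_nhds.div_atTop Real.tendsto_log_atTop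
  exact (hw.eventually (gt_mem_nhds zero_lt_one)).mono fun _ h => h.le

lemma PP_WC (hRH : RiemannHypothesis) {l : Filter ℝ} (hl : l ≤ atTop) (h : PP l) : WC l := by
  intro α β hα hαβ
  obtain ⟨K, hK, hb⟩ := win_bounds hRH
  have hK0 : Tendsto (fun T => 2 * K / X T) l (𝓝 0) :=
    (tendsto_const_nhds.div_atTop X_tendsto).mono_left hl
  rw [Metric.tendsto_nhds]
  intro ε hε
  set δ : ℝ := min (α / 2) (ε / 4) with hδ
  have hδ0 : 0 < δ := lt_min (by positivity) (by positivity)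
  have hδ1 : δ ≤ α / 2 := min_le_left _ _
  have hδ2 : δ ≤ ε / 4 := min_le_right _ _
  have h1 := (h β (by linarith)).sub (h α hα)
  have h2 := (h β (by linarith)).sub (h (α - δ) (by linarith))
  have e1 : ∀ᶠ T in l, 2 * (G β - G α) - ε < P T β - P T α :=
    h1.eventually (lt_mem_nhds (by linarith))
  have e2 : ∀ᶠ T in l, P T β - P T (α - δ) < 2 * (G β - G (α - δ)) + ε / 2 :=
    h2.eventually (gt_mem_nhds (by linarith))
  have e3 : ∀ᶠ T in l, 2 * K / X T < ε / 2 := hK0.eventually (gt_mem_nhds (by positivity))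
  have hG := G_lip (show α - δ ≤ α by linarith)
  filter_upwards [e1, e2, e3, hl (ev_small β), hl (eventually_ge_atTop (10 : ℝ))] with T g1 g2 g3 g4 g5
  obtain ⟨b1, b2⟩ := hb T α β δ g5 hα hαβ.le hδ0 g4
  rw [XT', gw_eq, Real.dist_eq, abs_lt]
  constructor <;> linarith

/-- **windows of fixed lengths** -/
theorem final2 (hCELL : S_CELL) (hUB : S_UB) (hDEC : S_DEC) (hBLK : S_BLK) (hSUM : S_SUM)
    (hIBP : S_IBP) (hIBG : S_IBG) (hHELLY : S_HELLY) (hDET : S_DET) (hTESTE : S_TESTE)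
    (hUNIQE : S_UNIQE) (hSHIFT : S_SHIFT) (hDIFF : S_DIFF) (hDENSE : S_DENSE)
    (hRH : RiemannHypothesis) (l : Filter ℝ) [l.IsCountablyGenerated] (hl : l ≤ atTop)
    (L : Set ℝ) (hL : ∀ ℓ ∈ L, 0 < ℓ) (hdense : Dense (AddSubgroup.closure L : Set ℝ)) :
    WC l ↔ ∀ ℓ ∈ L, WL l ℓ ∨ WU l ℓ := by
  constructor
  · intro h ℓ hℓ
    left
    refine ⟨0, 1, one_pos, fun a ha ε hε => ?_⟩
    have h1 : ∀ᶠ T in l, gw a (a + ℓ) - ε < NW T a (a + ℓ) / (T * Real.log T / (2 * Real.pi)) :=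
      (h a (a + ℓ) ha (by linarith [hL ℓ hℓ])).eventually (lt_mem_nhds (by linarith))
    filter_upwards [h1, hl (eventually_ge_atTop (10 : ℝ))] with T g1 g2
    rw [XT'] at g1 ⊢
    rw [lt_div_iff₀ (X_pos g2)] at g1
    rw [zero_mul, sub_zero]
    exact g1.le
  · intro h
    apply PP_WC hRH hl
    refine seq_form fun t ht => ?_
    have htop := ht.mono_right hl
    obtain ⟨j0, C0, hS⟩ := seq_of hRH (hSUM hRH hCELL hUB hDEC hBLK) (hUB hRH hCELL) hDEC hIBP
      hIBG htop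
    obtain ⟨K, hK, hb⟩ := win_bounds hRH
    have hK0 : Tendsto (fun T => 2 * K / X T) l (𝓝 0) :=
      (tendsto_const_nhds.div_atTop X_tendsto).mono_left hl
    have ht' : Tendsto (fun j => t (j + j0)) atTop l := ht.comp (tendsto_add_atTop_nat j0)
    intro u hu
    refine (tendsto_add_atTop_iff_nat j0).1 (core2_abs hHELLY hDEC hIBG hTESTE hDET hUNIQE hSHIFT
      hDIFF hDENSE hS L hL hdense ?_ u hu)
    intro ℓ hℓ
    have hℓ0 := hL ℓ hℓ
    rcases h ℓ hℓ with h1 | h1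
    · obtain ⟨C, c, hc, h1⟩ := h1
      refine ⟨1, Or.inl rfl, 2 * C, c, hc, limB_lower fun a ha δ hδ ε hε => ?_⟩
      have h2 : ∀ᶠ T in l, 2 * (G (a + ℓ) - G a) - (2 * C * Real.exp (-(c * a)) + ε) ≤
          P T (a + ℓ) - P T (a - δ) := by
        have e3 : ∀ᶠ T in l, 2 * K / X T < ε / 2 := hK0.eventually (gt_mem_nhds (by positivity))
        filter_upwards [h1 a ha (ε / 4) (by positivity), e3, hl (ev_small (a + ℓ)),
          hl (eventually_ge_atTop (10 : ℝ))] with T g1 g2 g3 g4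
        obtain ⟨b1, b2⟩ := hb T a (a + ℓ) δ g4 ha (by linarith) hδ g3
        rw [XT', gw_eq, ← le_div_iff₀ (X_pos g4)] at g1
        linarith
      exact ht'.eventually h2
    · obtain ⟨C, c, hc, h1⟩ := h1
      refine ⟨-1, Or.inr rfl, 2 * C, c, hc, limB_upper fun a ha ε hε => ?_⟩
      have h2 : ∀ᶠ T in l, P T (a + ℓ) - P T a ≤
          2 * (G (a + ℓ) - G a) + (2 * C * Real.exp (-(c * a)) + ε) := by
        filter_upwards [h1 a ha (ε / 4) (by positivity), hl (ev_small (a + ℓ)),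
          hl (eventually_ge_atTop (10 : ℝ))] with T g1 g3 g4
        obtain ⟨b1, b2⟩ := hb T a (a + ℓ) 1 g4 ha (by linarith) one_pos g3
        rw [XT', gw_eq, ← div_le_iff₀ (X_pos g4)] at g1
        linarith
      exact ht'.eventually h2

end W207.PR
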