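import Pool.Agent.W201.FW.Fin
import Pool.Agent.W207.PR.A0

/-! # One-sided pair correlation implies pair correlation: the tasks on the zeros of zeta -/

open Complex Filter Topology Set MeasureTheory
open scoped BigOperators

namespace W207.PR

/-- the zeros of `ζ` with ordinate in `(0, T]` -/
noncomputable abbrev ZT (T : ℝ) : Finset ℂ := H343.ZSide.Z0 T

/-- the multiplicity -/
noncomputable abbrev mz (s : ℂ) : ℝ := H343.ZSide.mz s

/-- `X T = (T / 2π) log T` -/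
noncomputable def X (T : ℝ) : ℝ := T / (2 * Real.pi) * Real.log T

/-- the normalised number of pairs (the diagonal included) at distance at most `u` mean spacings -/
noncomputable def P (T u : ℝ) : ℝ := H332B.N2 T (2 * Real.pi * u / Real.log T) / X T

/-- the deviation of the pair count from the prediction -/
noncomputable def D (T u : ℝ) : ℝ := P T u - (1 + 2 * G u)

/-- the pair sum of `ct ψ` at the scale of the mean spacing -/
noncomputable def SP (ψ : ℝ → ℝ) (T : ℝ) : ℝ :=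
  ∑ s ∈ ZT T, ∑ s' ∈ ZT T, mz s * mz s' * ct ψ ((s.im - s'.im) * Real.log T / (2 * Real.pi))

/-! ### Tasks -/

/-- uniform bound for the pair counts -/
def S_UB : Prop := RiemannHypothesis → S_CELL → ∃ C T0 : ℝ, 0 < C ∧ 10 ≤ T0 ∧
  ∀ T : ℝ, T0 ≤ T → ∀ u : ℝ, 0 ≤ u → P T u ≤ C * (1 + u)

/-- Montgomery's theorem for a block -/
def S_BLK : Prop := RiemannHypothesis → ∀ ψ : ℝ → ℝ, Tst ψ →
  Tendsto (fun V : ℝ => W201FW.SS (ct ψ) (V + 1) (2 * V - 1) (Real.log V) / X V) atTop (𝓝 (MM ψ))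

/-- Montgomery's theorem up to height `T` -/
def S_SUM : Prop := RiemannHypothesis → S_CELL → S_UB → S_DEC → S_BLK → ∀ ψ : ℝ → ℝ, Tst ψ →
  Tendsto (fun T : ℝ => SP ψ T / X T) atTop (𝓝 (MM ψ))

/-- integration by parts, the pair sum -/
def S_IBP : Prop := S_DEC → ∀ ψ : ℝ → ℝ, Tst ψ → ∀ T : ℝ, 10 ≤ T →
  IntegrableOn (fun u => dt ψ u * P T u) (Ioi 0) ∧
  SP ψ T / X T = -∫ u in Ioi (0 : ℝ), dt ψ u * P T u

/-- the core theorem, cumulative form (`σ = 1`: lower bound, `σ = -1`: upper bound) -/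
def S_CORE : Prop := RiemannHypothesis → ∀ (σ : ℝ), (σ = 1 ∨ σ = -1) →
  ∀ (T : ℕ → ℝ), Tendsto T atTop atTop → ∀ C c : ℝ, 0 < c →
  (∀ u : ℝ, 0 < u → ∀ ε : ℝ, 0 < ε → ∀ᶠ j in atTop,
    -(C * Real.exp (-(c * u)) + ε) ≤ σ * D (T j) u) →
  ∀ u : ℝ, 0 < u → Tendsto (fun j => P (T j) u) atTop (𝓝 (1 + 2 * G u))

/-- the core theorem, windows (`σ = 1`: lower bound, `σ = -1`: upper bound) -/
def S_COREW : Prop := RiemannHypothesis → ∀ (σ : ℝ), (σ = 1 ∨ σ = -1) →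
  ∀ (T : ℕ → ℝ), Tendsto T atTop atTop → ∀ A : ℝ, 0 < A →
  (∀ a b : ℝ, A < a → a < b → ∀ ε : ℝ, 0 < ε → ∀ᶠ j in atTop,
    -ε ≤ σ * (D (T j) b - D (T j) a)) →
  ∀ u : ℝ, 0 < u → Tendsto (fun j => P (T j) u) atTop (𝓝 (1 + 2 * G u))

end W207.PR
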