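import Pool.Agent.W207.PR.Stmts
import Pool.Agent.W207.PR.Abs

/-! # The core theorems for the zeros of zeta -/

open Complex Filter Topology Set MeasureTheory
open scoped BigOperators

namespace W207.PR

lemma X_pos {T : ℝ} (hT : 10 ≤ T) : 0 < X T := by
  unfold X
  have := Real.pi_pos
  have : 0 < Real.log T := Real.log_pos (by linarith)
  positivity

lemma mz_nonneg (s : ℂ) : 0 ≤ mz s := Nat.cast_nonneg _

lemma N2_mono (T : ℝ) : Monotone (H332B.N2 T) := by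
  intro w w' h
  unfold H332B.N2
  refine Finset.sum_le_sum fun s _ => Finset.sum_le_sum fun s' _ => ?_
  have h0 : 0 ≤ H343.ZSide.mz s * H343.ZSide.mz s' := mul_nonneg (mz_nonneg s) (mz_nonneg s')
  split_ifs with h1 h2
  · exact le_rfl
  · exact absurd (h1.trans h) h2
  · exact h0
  · exact le_rfl

lemma N2_neg (T : ℝ) {w : ℝ} (hw : w < 0) : H332B.N2 T w = 0 := by
  unfold H332B.N2
  refine Finset.sum_eq_zero fun s _ => Finset.sum_eq_zero fun s' _ => ?_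
  rw [if_neg]
  intro h
  have := abs_nonneg (s.im - s'.im)
  linarith

lemma P_mono {T : ℝ} (hT : 10 ≤ T) : Monotone (P T) := by
  intro u u' h
  unfold P
  have hX := X_pos hT
  have hlog : 0 < Real.log T := Real.log_pos (by linarith)
  have hpi := Real.pi_pos
  apply div_le_div_of_nonneg_right _ hX.le
  apply N2_mono
  gcongr

lemma P_nonneg {T : ℝ} (hT : 10 ≤ T) (u : ℝ) : 0 ≤ P T u := by
  unfold P
  exact div_nonneg (H321PC.N2_nonneg _ _) (X_pos hT).le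

lemma P_neg {T : ℝ} (hT : 10 ≤ T) {u : ℝ} (hu : u < 0) : P T u = 0 := by
  unfold P
  have hlog : 0 < Real.log T := Real.log_pos (by linarith)
  have hpi := Real.pi_pos
  rw [N2_neg, zero_div]
  apply div_neg_of_neg_of_pos _ hlog
  nlinarith

lemma seq_of (hRH : RiemannHypothesis) (hSUMc : ∀ ψ : ℝ → ℝ, Tst ψ →
      Tendsto (fun T : ℝ => SP ψ T / X T) atTop (𝓝 (MM ψ)))
    (hUBc : ∃ C T0 : ℝ, 0 < C ∧ 10 ≤ T0 ∧ ∀ T : ℝ, T0 ≤ T → ∀ u : ℝ, 0 ≤ u → P T u ≤ C * (1 + u))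
    (hDEC : S_DEC) (hIBP : S_IBP) (hIBG : S_IBG) {T : ℕ → ℝ} (hT : Tendsto T atTop atTop) :
    ∃ (j0 : ℕ) (C0 : ℝ), Seq (fun j => P (T (j + j0))) C0 := by
  obtain ⟨C, T0, hC, hT0, hub⟩ := hUBc
  obtain ⟨j0, hj0⟩ := eventually_atTop.1 (hT.eventually_ge_atTop T0)
  refine ⟨j0, C, ⟨fun j => P_mono (hT0.trans (hj0 _ (by omega))), fun j u => ?_, fun ψ hψ => ?_⟩⟩
  · have hTj : T0 ≤ T (j + j0) := hj0 _ (by omega)
    have h10 := hT0.trans hTj
    rcases lt_or_ge u 0 with h | h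
    · rw [P_neg h10 h, abs_zero]
      positivity
    · rw [abs_of_nonneg (P_nonneg h10 u), abs_of_nonneg h]
      exact hub _ hTj u h
  · obtain ⟨-, hMM⟩ := hIBG hDEC ψ hψ
    have h1 : Tendsto (fun j => SP ψ (T (j + j0)) / X (T (j + j0))) atTop (𝓝 (MM ψ)) :=
      ((hSUMc ψ hψ).comp hT).comp (tendsto_add_atTop_nat j0)
    have h2 : ∀ j, ∫ u in Ioi (0 : ℝ), dt ψ u * P (T (j + j0)) u =
        -(SP ψ (T (j + j0)) / X (T (j + j0))) := by
      intro j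
      have h3 := (hIBP hDEC ψ hψ (T (j + j0)) (hT0.trans (hj0 _ (by omega)))).2
      rw [h3, neg_neg]
    simp_rw [h2]
    have h4 : ∫ u in Ioi (0 : ℝ), dt ψ u * (1 + 2 * G u) = -MM ψ := by
      rw [hMM, neg_neg]
    rw [h4]
    exact h1.neg

theorem core (hCELL : S_CELL) (hUB : S_UB) (hDEC : S_DEC) (hBLK : S_BLK) (hSUM : S_SUM)
    (hIBP : S_IBP) (hIBG : S_IBG) (hHELLY : S_HELLY) (hTEST : S_TEST) (hDET : S_DET)
    (hUNIQ : S_UNIQ) : S_CORE := by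
  intro hRH σ hσ T hT C c hc hlow u hu
  obtain ⟨j0, C0, hS⟩ := seq_of hRH (hSUM hRH hCELL hUB hDEC hBLK) (hUB hRH hCELL) hDEC hIBP hIBG hT
  have h := core_abs hHELLY hDEC hIBG hTEST hDET hUNIQ hS σ hσ C c hc (by
    intro u hu ε hε
    exact (tendsto_add_atTop_nat j0).eventually (hlow u hu ε hε)) u hu
  exact (tendsto_add_atTop_iff_nat j0).1 h

theorem corew (hCELL : S_CELL) (hUB : S_UB) (hDEC : S_DEC) (hBLK : S_BLK) (hSUM : S_SUM)
    (hIBP : S_IBP) (hIBG : S_IBG) (hHELLY : S_HELLY) (hTEST : S_TEST) (hDET : S_DET)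
    (hUNIQ : S_UNIQ) (hMONO : S_MONO) : S_COREW := by
  intro hRH σ hσ T hT A hA hwin u hu
  obtain ⟨j0, C0, hS⟩ := seq_of hRH (hSUM hRH hCELL hUB hDEC hBLK) (hUB hRH hCELL) hDEC hIBP hIBG hT
  have h := corew_abs hHELLY hDEC hIBG hTEST hDET hUNIQ hMONO hS σ hσ A hA (by
    intro a b ha hab ε hε
    exact (tendsto_add_atTop_nat j0).eventually (hwin a b ha hab ε hε)) u hu
  exact (tendsto_add_atTop_iff_nat j0).1 h

end W207.PR
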